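import Pool.Agent.Helper79.ZC.Stmts

set_option autoImplicit false

/-! Module CNT: the counting facts about cores. -/

namespace Pool.Agent.Helper79.ZC

open scoped Classical

theorem cnt_card (hB : ST_BIJ) {M n : ℕ} (h : n ≤ M) : (bs M n).card = pn n := by
  obtain ⟨h1, h2, h3⟩ := hB M n h
  unfold pn
  rw [← Finset.card_univ]
  symm
  refine Finset.card_bij (fun l _ => bead M l) (fun l _ => h1 l) (fun l _ l' _ h => h2 l l' h) ?_
  intro X hX
  obtain ⟨l, hl⟩ := h3 X hX
  exact ⟨l, Finset.mem_univ l, hl⟩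

theorem cnt_core (hB : ST_BIJ) (hC : ST_CORE) {M n t : ℕ} (ht : 1 ≤ t) (h : n ≤ M) :
    ((bs M n).filter (fun Y => dn t Y = ∅)).card = cn t n := by
  obtain ⟨h1, h2, h3⟩ := hB M n h
  unfold cn
  symm
  refine Finset.card_bij (fun l _ => bead M l) ?_ (fun l _ l' _ h => h2 l l' h) ?_
  · intro l hl
    rw [Finset.mem_filter] at hl ⊢
    exact ⟨h1 l, (hC M n t ht h l).1 hl.2⟩
  · intro X hX
    rw [Finset.mem_filter] at hX
    obtain ⟨l, hl⟩ := h3 X hX.1
    refine ⟨l, ?_, hl⟩
    rw [Finset.mem_filter]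
    refine ⟨Finset.mem_univ l, (hC M n t ht h l).2 ?_⟩
    rw [hl]
    exact hX.2

theorem cnt_bonf (N J : ℕ) :
    ∑ j ∈ Finset.range (2 * J), (-1 : ℤ) ^ j * ((N.choose j : ℕ) : ℤ) ≤ (if N = 0 then 1 else 0) ∧
    (if N = 0 then 1 else 0) ≤
      ∑ j ∈ Finset.range (2 * J + 1), (-1 : ℤ) ^ j * ((N.choose j : ℕ) : ℤ) := by
  rcases N with _ | N
  · have h1 : ∀ m : ℕ, 1 ≤ m → ∑ j ∈ Finset.range m, (-1 : ℤ) ^ j * (((0 : ℕ).choose j : ℕ) : ℤ) =
        1 := by
      intro m hm
      obtain ⟨k, rfl⟩ := Nat.exists_eq_add_of_le' hm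
      rw [Finset.sum_range_succ']
      simp
    constructor
    · rcases J with _ | J
      · simp
      · rw [h1 _ (by omega)]
        simp
    · rw [h1 _ (by omega)]
      simp
  · constructor
    · rcases J with _ | J
      · simp
      · have h1 : 2 * (J + 1) = (2 * J + 1) + 1 := by ring
        rw [h1, Int.alternating_sum_range_choose_eq_choose]
        have h2 : ((-1 : ℤ)) ^ (2 * J + 1) = -1 := by
          rw [pow_succ, pow_mul]
          norm_num
        rw [h2, if_neg (Nat.succ_ne_zero N)]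
        have : (0 : ℤ) ≤ (N.choose (2 * J + 1) : ℤ) := Int.natCast_nonneg _
        linarith
    · rw [Int.alternating_sum_range_choose_eq_choose]
      have h2 : ((-1 : ℤ)) ^ (2 * J) = 1 := by
        rw [pow_mul]
        norm_num
      rw [h2, if_neg (Nat.succ_ne_zero N), one_mul]
      exact Int.natCast_nonneg _

/-- **Module CNT.** -/
theorem st_CNT (hB : ST_BIJ) (hC : ST_CORE) (hU : ST_UPDN) (hM : ST_MOV) (hI : ST_INJ) :
    ST_CNT := by
  refine ⟨?_, ?_, ?_⟩
  · intro n t j ht
    have h1 := hI (n + j * t + t) n t j ht (by omega)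
    rw [cnt_core hB hC ht (by omega), cnt_card hB (by omega)] at h1
    exact h1
  · intro n t k _
    unfold cn
    refine Finset.card_le_card ?_
    intro l hl
    rw [Finset.mem_filter] at hl ⊢
    refine ⟨hl.1, fun i j hj hd => hl.2 i j hj ?_⟩
    exact (Nat.dvd_mul_left t k).trans hd
  · intro n t ht
    refine ⟨fun j => ∑ X ∈ bs (n + t) n, ((dn t X).card).choose j, ?_, ?_⟩
    · intro j hj
      have h1 := hM (n + t) (n - j * t) t j ht
      rw [Nat.sub_add_cancel hj] at h1
      have h2 : ∀ Y ∈ bs (n + t) (n - j * t), t ≤ (up t Y).card ∧ (up t Y).card ≤ t + n / t := by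
        intro Y hY
        obtain ⟨h3, h4⟩ := hU (n + t) (n - j * t) t ht (by omega) Y hY
        have h5 : (dn t Y).card ≤ n / t := by
          rw [Nat.le_div_iff_mul_le (by omega)]
          exact h4.trans (Nat.sub_le _ _)
        omega
      have hc : (bs (n + t) (n - j * t)).card = pn (n - j * t) := cnt_card hB (by omega)
      show t.choose j * pn (n - j * t) ≤ ∑ X ∈ bs (n + t) n, ((dn t X).card).choose j ∧
        ∑ X ∈ bs (n + t) n, ((dn t X).card).choose j ≤ (t + n / t).choose j * pn (n - j * t)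
      rw [h1, ← hc]
      constructor
      · calc t.choose j * (bs (n + t) (n - j * t)).card
            = ∑ _Y ∈ bs (n + t) (n - j * t), t.choose j := by
              rw [Finset.sum_const, smul_eq_mul, mul_comm]
          _ ≤ _ := Finset.sum_le_sum fun Y hY => Nat.choose_le_choose j (h2 Y hY).1
      · calc ∑ Y ∈ bs (n + t) (n - j * t), ((up t Y).card).choose j
            ≤ ∑ _Y ∈ bs (n + t) (n - j * t), (t + n / t).choose j :=
              Finset.sum_le_sum fun Y hY => Nat.choose_le_choose j (h2 Y hY).2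
          _ = _ := by rw [Finset.sum_const, smul_eq_mul, mul_comm]
    · intro J
      have hcn : (cn t n : ℤ) = ∑ X ∈ bs (n + t) n, (if (dn t X).card = 0 then (1 : ℤ) else 0) := by
        rw [← cnt_core hB hC ht (show n ≤ n + t by omega), Finset.card_filter]
        push_cast
        refine Finset.sum_congr rfl fun X _ => ?_
        simp only [Finset.card_eq_zero]
      have hex : ∀ m : ℕ, ∑ j ∈ Finset.range m, (-1 : ℤ) ^ j *
          ((∑ X ∈ bs (n + t) n, ((dn t X).card).choose j : ℕ) : ℤ) =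
          ∑ X ∈ bs (n + t) n, ∑ j ∈ Finset.range m, (-1 : ℤ) ^ j *
            ((((dn t X).card).choose j : ℕ) : ℤ) := by
        intro m
        rw [Finset.sum_comm]
        refine Finset.sum_congr rfl fun j _ => ?_
        rw [Nat.cast_sum, Finset.mul_sum]
      show ∑ j ∈ Finset.range (2 * J), (-1 : ℤ) ^ j *
          ((∑ X ∈ bs (n + t) n, ((dn t X).card).choose j : ℕ) : ℤ) ≤ (cn t n : ℤ) ∧
        (cn t n : ℤ) ≤ ∑ j ∈ Finset.range (2 * J + 1), (-1 : ℤ) ^ j *
          ((∑ X ∈ bs (n + t) n, ((dn t X).card).choose j : ℕ) : ℤ)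
      rw [hex, hex, hcn]
      exact ⟨Finset.sum_le_sum fun X _ => (cnt_bonf _ J).1,
        Finset.sum_le_sum fun X _ => (cnt_bonf _ J).2⟩

end Pool.Agent.Helper79.ZC
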