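import Pool.Agent.Helper79.ZC.Stmts

set_option autoImplicit false

/-! Module CORE: the core condition in terms of beads. -/

namespace Pool.Agent.Helper79.ZC

open scoped Classical

theorem core_row_anti {n : ℕ} (l : n.Partition) {i j : ℕ} (h : i ≤ j) : row l j ≤ row l i := by
  unfold row
  set L := l.parts.sort (fun a b => b ≤ a) with hL
  have hs : L.Pairwise (fun a b => b ≤ a) := Multiset.pairwise_sort _ _
  rcases h.eq_or_lt with rfl | hlt
  · exact le_rfl
  by_cases hj : j < L.length
  · have hi : i < L.length := hlt.trans hj
    rw [List.getD_eq_getElem _ _ hj, List.getD_eq_getElem _ _ hi]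
    exact List.pairwise_iff_getElem.1 hs i j hi hj hlt
  · rw [List.getD_eq_default _ _ (not_lt.1 hj)]
    exact Nat.zero_le _

theorem core_row_zero {n : ℕ} (l : n.Partition) {i : ℕ} (h : n ≤ i) : row l i = 0 := by
  unfold row
  apply List.getD_eq_default
  rw [Multiset.length_sort]
  have h1 := Multiset.card_nsmul_le_sum (s := l.parts) (a := 1)
    (fun x hx => l.parts_pos hx)
  rw [l.parts_sum, smul_eq_mul, mul_one] at h1
  exact h1.trans h

/-- an initial segment described by a decreasing function -/
theorem core_init {M y : ℕ} {f : ℕ → ℕ} (hf : ∀ i j : ℕ, i ≤ j → j < M → f j ≤ f i) (s : ℕ)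
    (hs : s < M) :
    y < f s ↔ s < ((Finset.range M).filter (fun s => y < f s)).card := by
  constructor
  · intro h
    have h1 : Finset.range (s + 1) ⊆ (Finset.range M).filter (fun s => y < f s) := by
      intro r hr
      rw [Finset.mem_range] at hr
      rw [Finset.mem_filter, Finset.mem_range]
      exact ⟨by omega, h.trans_le (hf r s (by omega) hs)⟩
    have h2 := Finset.card_le_card h1
    rw [Finset.card_range] at h2
    omega
  · intro h
    by_contra hcon
    have h1 : (Finset.range M).filter (fun s => y < f s) ⊆ Finset.range s := by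
      intro r hr
      rw [Finset.mem_filter, Finset.mem_range] at hr
      rw [Finset.mem_range]
      by_contra h2
      exact hcon (hr.2.trans_le (hf s r (by omega) hr.1))
    have h2 := Finset.card_le_card h1
    rw [Finset.card_range] at h2
    omega

theorem core_card_le (M y : ℕ) (f : ℕ → ℕ) :
    ((Finset.range M).filter (fun s => f s ≤ y)).card +
      ((Finset.range M).filter (fun s => y < f s)).card = M := by
  have h1 := Finset.card_filter_add_card_filter_not (s := Finset.range M) (fun s => f s ≤ y)
  rw [Finset.card_range] at h1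
  have h2 : (Finset.range M).filter (fun s => ¬ f s ≤ y) =
      (Finset.range M).filter (fun s => y < f s) := by
    apply Finset.filter_congr
    intro s _
    exact not_le
  rw [h2] at h1
  exact h1

/-- the gaps -/
noncomputable def coreY (M : ℕ) {n : ℕ} (l : n.Partition) (j : ℕ) : ℕ :=
  j + ((Finset.range M).filter (fun s => row l s ≤ j)).card

theorem core_mem {M n : ℕ} (l : n.Partition) (x : ℕ) :
    x ∈ bead M l ↔ ∃ i, i < M ∧ row l i + (M - 1 - i) = x := by
  unfold bead
  rw [Finset.mem_image]
  constructor
  · rintro ⟨i, hi, h⟩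
    exact ⟨i, Finset.mem_range.1 hi, h⟩
  · rintro ⟨i, hi, h⟩
    exact ⟨i, Finset.mem_range.2 hi, h⟩

theorem core_Y_notMem {M n : ℕ} (l : n.Partition) (j : ℕ) : coreY M l j ∉ bead M l := by
  rw [core_mem]
  rintro ⟨s, hs, h⟩
  have h1 := core_card_le M j (fun s => row l s)
  have h2 := core_init (M := M) (y := j) (f := fun s => row l s)
    (fun i j h _ => core_row_anti l h) s hs
  unfold coreY at h
  have h1' : ((Finset.range M).filter (fun s => row l s ≤ j)).card +
      ((Finset.range M).filter (fun s => j < row l s)).card = M := h1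
  have h2' : j < row l s ↔ s < ((Finset.range M).filter (fun s => j < row l s)).card := h2
  by_cases hc : j < row l s
  · have := h2'.1 hc
    omega
  · have h3 : ¬ s < ((Finset.range M).filter (fun s => j < row l s)).card := fun h4 => hc (h2'.2 h4)
    omega

theorem core_hook {M n : ℕ} (hM : n ≤ M) (l : n.Partition) {i j : ℕ} (h : j < row l i) :
    i < M ∧ row l i + (M - 1 - i) = coreY M l j + hook l i j := by
  have hin : i < n := by
    by_contra hcon
    rw [core_row_zero l (not_lt.1 hcon)] at h
    omega
  have hiM : i < M := by omega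
  refine ⟨hiM, ?_⟩
  have h1 : ((Finset.range M).filter (fun s => row l s ≤ j)).card +
      ((Finset.range M).filter (fun s => j < row l s)).card = M :=
    core_card_le M j (fun s => row l s)
  have h2 : ∀ s, s < M →
      (j < row l s ↔ s < ((Finset.range M).filter (fun s => j < row l s)).card) :=
    fun s hs => core_init (M := M) (y := j) (f := fun s => row l s)
      (fun i j h _ => core_row_anti l h) s hs
  set c := ((Finset.range M).filter (fun s => j < row l s)).card with hc
  have h3 : (Finset.range n).filter (fun s => i ≤ s ∧ j < row l s) = Finset.Ico i c := by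
    ext s
    rw [Finset.mem_filter, Finset.mem_range, Finset.mem_Ico]
    constructor
    · rintro ⟨hs, his, hjs⟩
      exact ⟨his, (h2 s (by omega)).1 hjs⟩
    · rintro ⟨his, hsc⟩
      have hsM : s < M := by omega
      have hjs := (h2 s hsM).2 hsc
      refine ⟨?_, his, hjs⟩
      by_contra hcon
      rw [core_row_zero l (not_lt.1 hcon)] at hjs
      omega
  have h4 := (h2 i hiM).1 h
  unfold coreY hook
  rw [h3, Nat.card_Ico]
  omega

theorem core_gap {M n : ℕ} (l : n.Partition) {i y : ℕ} (hi : i < M)
    (hy : y ∉ bead M l) (hlt : y < row l i + (M - 1 - i)) :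
    ∃ j, j < row l i ∧ coreY M l j = y := by
  have hanti : ∀ a b : ℕ, a ≤ b → b < M → row l b + (M - 1 - b) ≤ row l a + (M - 1 - a) := by
    intro a b hab hb
    have := core_row_anti l hab
    omega
  have h2 : ∀ s, s < M → (y < row l s + (M - 1 - s) ↔
      s < ((Finset.range M).filter (fun s => y < row l s + (M - 1 - s))).card) :=
    fun s hs => core_init (M := M) (y := y) (f := fun s => row l s + (M - 1 - s)) hanti s hs
  set k := ((Finset.range M).filter (fun s => y < row l s + (M - 1 - s))).card with hk
  have hkM : k ≤ M := by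
    rw [hk]
    refine (Finset.card_filter_le _ _).trans ?_
    rw [Finset.card_range]
  have hik : i < k := (h2 i hi).1 hlt
  have hne : ∀ s, s < M → row l s + (M - 1 - s) ≠ y := fun s hs h =>
    hy ((core_mem l y).2 ⟨s, hs, h⟩)
  -- M ≤ y + k
  have hMy : M ≤ y + k := by
    rcases hkM.eq_or_lt with h | h
    · omega
    · have h3 : ¬ y < row l k + (M - 1 - k) := fun h4 => lt_irrefl k ((h2 k h).1 h4)
      have h4 := hne k h
      omega
  have hk1 := (h2 (k - 1) (by omega)).2 (by omega)
  have hrow1 : ∀ s, s < k → y + k - M < row l s := by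
    intro s hs
    have h5 := core_row_anti l (show s ≤ k - 1 by omega)
    omega
  have hrow2 : ∀ s, k ≤ s → s < M → row l s ≤ y + k - M := by
    intro s hs hsM
    have h5 := core_row_anti l hs
    have h3 : ¬ y < row l k + (M - 1 - k) := fun h4 => lt_irrefl k ((h2 k (by omega)).1 h4)
    have h4 := hne k (by omega)
    omega
  refine ⟨y + k - M, hrow1 i hik, ?_⟩
  have h6 : (Finset.range M).filter (fun s => row l s ≤ y + k - M) = Finset.Ico k M := by
    ext s
    rw [Finset.mem_filter, Finset.mem_range, Finset.mem_Ico]
    constructor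
    · rintro ⟨hs, h7⟩
      refine ⟨?_, hs⟩
      by_contra hcon
      have := hrow1 s (by omega)
      omega
    · rintro ⟨hs, hsM⟩
      exact ⟨hsM, hrow2 s hs hsM⟩
  unfold coreY
  rw [h6, Nat.card_Ico]
  omega

/-- **Module CORE.** -/
theorem st_CORE : ST_CORE := by
  intro M n t ht hM l
  constructor
  · intro hcore
    rw [Finset.eq_empty_iff_forall_notMem]
    intro x hx
    unfold dn at hx
    rw [Finset.mem_filter] at hx
    obtain ⟨hxm, htx, hxt⟩ := hx
    obtain ⟨i, hi, hxi⟩ := (core_mem l x).1 hxm
    obtain ⟨j, hj, hjy⟩ := core_gap l (y := x - t) hi hxt (by omega)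
    obtain ⟨-, h1⟩ := core_hook hM l hj
    have h2 : hook l i j = t := by omega
    apply hcore i j hj
    rw [h2]
  · intro hdn i j hj hdvd
    obtain ⟨hi, h1⟩ := core_hook hM l hj
    obtain ⟨m, hm⟩ := hdvd
    have hstep : ∀ x ∈ bead M l, t ≤ x → x - t ∈ bead M l := by
      intro x hx htx
      by_contra hcon
      have : x ∈ dn t (bead M l) := by
        unfold dn
        rw [Finset.mem_filter]
        exact ⟨hx, htx, hcon⟩
      rw [hdn] at this
      exact Finset.notMem_empty x this
    have hind : ∀ r, r ≤ m → coreY M l j + t * (m - r) ∈ bead M l := by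
      intro r
      induction r with
      | zero =>
        intro _
        rw [Nat.sub_zero, ← hm, ← h1]
        exact (core_mem l _).2 ⟨i, hi, rfl⟩
      | succ r ih =>
        intro hr
        have h2 := ih (by omega)
        have h3 : t * (m - r) = t * (m - (r + 1)) + t := by
          have : m - r = (m - (r + 1)) + 1 := by omega
          rw [this]
          ring
        have h4 := hstep _ h2 (by omega)
        have h5 : coreY M l j + t * (m - r) - t = coreY M l j + t * (m - (r + 1)) := by omega
        rw [h5] at h4
        exact h4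
    have h6 := hind m le_rfl
    rw [Nat.sub_self, Nat.mul_zero, Nat.add_zero] at h6
    exact core_Y_notMem l j h6

end Pool.Agent.Helper79.ZC
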