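import Pool.Agent.Helper79.ZC.Stmts

set_option autoImplicit false

/-! Module FIN: both densities are asymptotic to `2 / log n`. -/

namespace Pool.Agent.Helper79.ZC

open scoped Classical
open Filter Topology

theorem fin_zero {f : ℕ → ℝ} (h : Tendsto (fun n : ℕ => f n * Real.log n) atTop (𝓝 2)) :
    Tendsto f atTop (𝓝 0) := by
  have h1 : Tendsto (fun n : ℕ => Real.log (n : ℝ)) atTop atTop :=
    Real.tendsto_log_atTop.comp tendsto_natCast_atTop_atTop
  have h2 := h.mul h1.inv_tendsto_atTop
  rw [mul_zero] at h2
  refine h2.congr' ?_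
  filter_upwards [h1.eventually_gt_atTop 0] with n hn
  show f n * Real.log n * (Real.log n)⁻¹ = f n
  rw [mul_assoc, mul_inv_cancel₀ hn.ne', mul_one]

/-- **Module FIN.** -/
theorem st_FIN (hZ : ST_ZII) (hU : ST_UPP) (hL : ST_LOB) : ST_FIN := by
  have hlog : ∀ᶠ n : ℕ in atTop, zI n * Real.log n ≤ zII n * Real.log n := by
    filter_upwards [eventually_ge_atTop 1] with n hn
    have h1 : (1 : ℝ) ≤ n := by exact_mod_cast hn
    exact mul_le_mul_of_nonneg_right (hZ n hn).1 (Real.log_nonneg h1)
  have hI : Tendsto (fun n : ℕ => zI n * Real.log n) atTop (𝓝 2) := by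
    rw [tendsto_order]
    constructor
    · intro a ha
      filter_upwards [hL ((2 - a) / 2) (by linarith)] with n hn
      linarith
    · intro a ha
      filter_upwards [hU ((a - 2) / 2) (by linarith), hlog] with n hn h2
      linarith
  have hII : Tendsto (fun n : ℕ => zII n * Real.log n) atTop (𝓝 2) := by
    rw [tendsto_order]
    constructor
    · intro a ha
      filter_upwards [hL ((2 - a) / 2) (by linarith), hlog] with n hn h2
      linarith
    · intro a ha
      filter_upwards [hU ((a - 2) / 2) (by linarith)] with n hn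
      linarith
  exact ⟨hI, hII, fin_zero hI, fin_zero hII⟩

end Pool.Agent.Helper79.ZC
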