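import Pool.Agent.Helper79.ZC.UPDN

set_option autoImplicit false

/-! Module INJ: a core is determined by any bead set obtained from it by moving beads up. -/

namespace Pool.Agent.Helper79.ZC

open scoped Classical

/-- number of beads in a residue class -/
noncomputable def injC (t r : ℕ) (X : Finset ℕ) : ℕ := (X.filter (fun x => x % t = r)).card

theorem inj_C_U {t : ℕ} {X S : Finset ℕ} (hS : S ⊆ up t X) (r : ℕ) :
    injC t r (updnU t X S) = injC t r X := by
  have hSX : S ⊆ X := fun x hx => (updn_up_mem hS hx).1
  unfold injC updnU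
  have h0 : Disjoint ((X \ S).filter (fun x => x % t = r))
      ((S.image (fun x => x + t)).filter (fun x => x % t = r)) :=
    Finset.disjoint_filter_filter ((updn_U_disj hS).mono_left Finset.sdiff_subset)
  rw [Finset.filter_union, Finset.card_union_of_disjoint h0, Finset.filter_image,
    Finset.card_image_of_injOn (by
      intro a _ b _ hab
      have h3 : a + t = b + t := hab
      omega)]
  have h1 : (S.filter (fun a => (a + t) % t = r)) = S.filter (fun a => a % t = r) := by
    apply Finset.filter_congr
    intro a _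
    rw [Nat.add_mod_right]
  rw [h1]
  have h2 : X.filter (fun x => x % t = r) = (X \ S).filter (fun x => x % t = r) ∪
      S.filter (fun x => x % t = r) := by
    rw [← Finset.filter_union, Finset.sdiff_union_of_subset hSX]
  rw [h2, Finset.card_union_of_disjoint]
  exact Finset.disjoint_filter_filter Finset.sdiff_disjoint

theorem inj_lower {I : Finset ℕ} (h : ∀ i, i + 1 ∈ I → i ∈ I) (i : ℕ) : i ∈ I ↔ i < I.card := by
  have hd : ∀ k i, i + k ∈ I → i ∈ I := by
    intro k
    induction k with
    | zero => intro i hi; exact hi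
    | succ k ih =>
      intro i hi
      apply ih
      apply h
      rw [show i + k + 1 = i + (k + 1) by ring]
      exact hi
  constructor
  · intro hi
    have h1 : Finset.range (i + 1) ⊆ I := by
      intro r hr
      rw [Finset.mem_range] at hr
      apply hd (i - r) r
      rw [show r + (i - r) = i by omega]
      exact hi
    have h2 := Finset.card_le_card h1
    rw [Finset.card_range] at h2
    omega
  · intro hi
    by_contra hcon
    have h1 : I ⊆ Finset.range i := by
      intro r hr
      rw [Finset.mem_range]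
      by_contra h2
      apply hcon
      apply hd (r - i) i
      rw [show i + (r - i) = r by omega]
      exact hr
    have h2 := Finset.card_le_card h1
    rw [Finset.card_range] at h2
    omega

theorem inj_core_mem {t : ℕ} (ht : 1 ≤ t) {Y : Finset ℕ} (hY : dn t Y = ∅) (x : ℕ) :
    x ∈ Y ↔ x / t < injC t (x % t) Y := by
  have hstep : ∀ x ∈ Y, t ≤ x → x - t ∈ Y := by
    intro x hx htx
    by_contra hcon
    have : x ∈ dn t Y := by
      unfold dn
      rw [Finset.mem_filter]
      exact ⟨hx, htx, hcon⟩
    rw [hY] at this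
    exact Finset.notMem_empty x this
  set r := x % t with hr
  have hrt : r < t := Nat.mod_lt _ (by omega)
  set I := (Y.filter (fun x => x % t = r)).image (fun x => x / t) with hI
  have hmem : ∀ i, i ∈ I ↔ r + t * i ∈ Y := by
    intro i
    rw [hI, Finset.mem_image]
    constructor
    · rintro ⟨y, hy, rfl⟩
      rw [Finset.mem_filter] at hy
      have h1 := Nat.mod_add_div y t
      rw [hy.2] at h1
      rw [h1]
      exact hy.1
    · intro hi
      refine ⟨r + t * i, ?_, ?_⟩
      · rw [Finset.mem_filter]
        refine ⟨hi, ?_⟩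
        rw [Nat.add_mul_mod_self_left]
        exact Nat.mod_eq_of_lt hrt
      · rw [Nat.add_mul_div_left _ _ (by omega), Nat.div_eq_of_lt hrt, Nat.zero_add]
  have hcard : I.card = injC t r Y := by
    rw [hI]
    unfold injC
    apply Finset.card_image_of_injOn
    intro a ha b hb hab
    rw [Finset.mem_coe, Finset.mem_filter] at ha hb
    have h1 := Nat.mod_add_div a t
    have h2 := Nat.mod_add_div b t
    have h3 : a / t = b / t := hab
    rw [ha.2, h3] at h1
    rw [hb.2] at h2
    exact h1.symm.trans h2
  have hlow : ∀ i, i + 1 ∈ I → i ∈ I := by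
    intro i hi
    rw [hmem] at hi ⊢
    have h1 := hstep _ hi (by nlinarith)
    have h2 : r + t * (i + 1) - t = r + t * i := by
      rw [Nat.mul_add, Nat.mul_one, ← Nat.add_assoc, Nat.add_sub_cancel]
    rw [h2] at h1
    exact h1
  rw [← hcard, ← inj_lower hlow, hmem, hr, Nat.mod_add_div]

/-- **Module INJ.** -/
theorem st_INJ : ST_INJ := by
  intro M n t j ht hM
  have h1 : ((bs M n).filter (fun Y => dn t Y = ∅)).card * t.choose j =
      (((bs M n).filter (fun Y => dn t Y = ∅)).sigma
        (fun Y => (up t Y).powersetCard j)).card := by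
    rw [Finset.card_sigma, Finset.sum_const_nat (m := t.choose j)]
    intro Y hY
    rw [Finset.mem_filter] at hY
    have h2 := (st_UPDN M n t ht hM Y hY.1).1
    rw [hY.2, Finset.card_empty, Nat.zero_add] at h2
    rw [Finset.card_powersetCard, h2]
  rw [h1]
  refine Finset.card_le_card_of_injOn (fun q => updnU t q.1 q.2) ?_ ?_
  · rintro ⟨Y, S⟩ hq
    rw [Finset.mem_coe, Finset.mem_sigma, Finset.mem_powersetCard, Finset.mem_filter] at hq
    obtain ⟨⟨hY, -⟩, hS, hSj⟩ := hq
    obtain ⟨h3, h4⟩ := updn_mem_bs.1 hY
    have h5 : ∑ x ∈ updnU t Y S, x = ∑ x ∈ Y, x + S.card * t := updn_U_sum hS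
    have h6 := updn_U_card hS
    show updnU t Y S ∈ bs M (n + j * t)
    refine updn_mem_bs.2 ⟨h6.trans h3, ?_⟩
    have hSj' : S.card = j := hSj
    rw [hSj'] at h5
    have h4' : ∑ x ∈ Y, x = ∑ i ∈ Finset.range M, i + n := h4
    omega
  · rintro ⟨Y, S⟩ hq ⟨Y', S'⟩ hq' heq
    rw [Finset.mem_coe, Finset.mem_sigma, Finset.mem_powersetCard, Finset.mem_filter] at hq hq'
    obtain ⟨⟨hY, hcore⟩, hS, hSj⟩ := hq
    obtain ⟨⟨hY', hcore'⟩, hS', hSj'⟩ := hq'
    have he : updnU t Y S = updnU t Y' S' := heq
    have hSs : S ⊆ up t Y := hS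
    have hSs' : S' ⊆ up t Y' := hS'
    have hYY : Y = Y' := by
      ext x
      rw [inj_core_mem ht hcore x, inj_core_mem ht hcore' x, ← inj_C_U hSs, he, inj_C_U hSs']
    have hSset : ∀ (Z T : Finset ℕ), T ⊆ up t Z → Z \ updnU t Z T = T := by
      intro Z T hT
      ext x
      rw [Finset.mem_sdiff]
      constructor
      · rintro ⟨hx, hn⟩
        by_contra hc
        apply hn
        unfold updnU
        exact Finset.mem_union_left _ (Finset.mem_sdiff.2 ⟨hx, hc⟩)
      · intro hx
        have hxZ := (updn_up_mem hT hx).1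
        refine ⟨hxZ, fun hc => ?_⟩
        unfold updnU at hc
        rcases Finset.mem_union.1 hc with hc | hc
        · exact (Finset.mem_sdiff.1 hc).2 hx
        · exact Finset.disjoint_left.1 (updn_U_disj hT) hxZ hc
    have hSS : S = S' := by
      rw [← hSset Y S hSs, he, hYY, hSset Y' S' hSs']
    rw [hYY, hSS]

end Pool.Agent.Helper79.ZC
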