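import Pool.Agent.Helper79.ZC.UPP

set_option autoImplicit false

/-! Module LOB: lower bound for the density of the zeros of type I. -/

namespace Pool.Agent.Helper79.ZC

open scoped Classical
open Filter Topology MeasureTheory

theorem lob_geom {x : ℝ} (hx0 : 0 < x) (hx1 : x < 1) (t n : ℕ) :
    ∑ s ∈ Finset.Ioc t n, x ^ s ≤ x ^ t / (1 - x) := by
  rcases le_total n t with h | h
  · rw [Finset.Ioc_eq_empty (by omega), Finset.sum_empty]
    have : 0 < 1 - x := by linarith
    positivity
  · have h1 : ∑ s ∈ Finset.Ioc t n, x ^ s ≤ (x ^ t - x ^ n) / (1 - x) := by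
      induction n, h using Nat.le_induction with
      | base => simp
      | succ k hk ih =>
        rw [Finset.sum_Ioc_succ_top hk]
        have h2 : 0 < 1 - x := by linarith
        rw [le_div_iff₀ h2] at ih ⊢
        have h3 : x ^ (k + 1) ≤ x ^ k := pow_le_pow_of_le_one hx0.le hx1.le (Nat.le_succ k)
        have h4 : x ^ (k + 1) = x ^ k * x := pow_succ x k
        nlinarith [pow_pos hx0 k]
    refine h1.trans ?_
    apply div_le_div_of_nonneg_right _ (by linarith)
    have := pow_pos hx0 n
    linarith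

/-- **Module LOB.** -/
theorem st_LOB (hZ : ST_ZI) (hG : ST_GF) (hR : ST_RAT) (hK : ST_KAP) (hW : ST_WIN)
    (hTEL : ST_TEL) : ST_LOB := by
  intro ε hε
  -- choose B
  obtain ⟨B, hB1, hBε⟩ : ∃ B : ℝ, 1 < B ∧
      2 - ε / 2 ≤ 2 * (Real.exp (-(1 / B)) - Real.exp (-B)) := by
    have h1 : Tendsto (fun B : ℝ => 2 * (Real.exp (-(1 / B)) - Real.exp (-B))) atTop (𝓝 2) := by
      have h2 : Tendsto (fun B : ℝ => Real.exp (-(1 / B))) atTop (𝓝 1) := by
        have h3 : Tendsto (fun B : ℝ => -(1 / B)) atTop (𝓝 0) := by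
          have := (tendsto_inv_atTop_zero (𝕜 := ℝ)).neg
          rw [neg_zero] at this
          refine this.congr fun B => ?_
          rw [one_div]
        have h8 := (Real.continuous_exp.tendsto 0).comp h3
        rw [Real.exp_zero] at h8
        exact h8
      have h4 : Tendsto (fun B : ℝ => Real.exp (-B)) atTop (𝓝 0) := Real.tendsto_exp_neg_atTop_nhds_zero
      have h6 : Tendsto (fun B : ℝ => 2 * (Real.exp (-(1 / B)) - Real.exp (-B))) atTop
          (𝓝 (2 * (1 - 0))) := (h2.sub h4).const_mul 2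
      have h7 : (2 : ℝ) * (1 - 0) = 2 := by norm_num
      rw [h7] at h6
      exact h6
    have h5 := h1.eventually (lt_mem_nhds (show 2 - ε / 2 < 2 by linarith))
    obtain ⟨B, hB⟩ := (h5.and (eventually_gt_atTop 1)).exists
    exact ⟨B, hB.2, hB.1.le⟩
  have hB0 : 0 < B := by linarith
  obtain ⟨δ, hδ, hδ1, hδε⟩ : ∃ δ : ℝ, 0 < δ ∧ δ ≤ 1 / 4 ∧
      2 - ε ≤ (1 - 3 * δ) * ((2 * (Real.exp (-(1 / B)) - Real.exp (-B)) - δ) -
        δ * (2 * B + δ)) := by
    have hcont : Tendsto (fun δ : ℝ => (1 - 3 * δ) *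
        ((2 * (Real.exp (-(1 / B)) - Real.exp (-B)) - δ) - δ * (2 * B + δ))) (𝓝 0)
        (𝓝 (2 * (Real.exp (-(1 / B)) - Real.exp (-B)))) := by
      have : Continuous fun δ : ℝ => (1 - 3 * δ) *
        ((2 * (Real.exp (-(1 / B)) - Real.exp (-B)) - δ) - δ * (2 * B + δ)) := by fun_prop
      have h := this.tendsto 0
      simpa using h
    have hev := hcont.eventually (lt_mem_nhds (show 2 - ε <
      2 * (Real.exp (-(1 / B)) - Real.exp (-B)) by linarith))
    obtain ⟨η, hη, hball⟩ := Metric.eventually_nhds_iff.1 hev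
    have hm : 0 < min (η / 2) (1 / 4) := lt_min (by linarith) (by norm_num)
    refine ⟨min (η / 2) (1 / 4), hm, min_le_right _ _, ?_⟩
    refine (hball ?_).le
    rw [Real.dist_eq, sub_zero, abs_of_pos hm]
    exact (min_le_left _ _).trans_lt (by linarith)
  have hlogdiv : Tendsto (fun n : ℕ => Real.log n / Real.sqrt n) atTop (𝓝 0) := by
    have h1 : Tendsto (fun x : ℝ => Real.log x / x ^ (1 / 2 : ℝ)) atTop (𝓝 0) :=
      (isLittleO_log_rpow_atTop (by norm_num)).tendsto_div_nhds_zero
    have h2 := h1.comp tendsto_natCast_atTop_atTop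
    refine h2.congr fun n => ?_
    simp [Real.sqrt_eq_rpow]
  have hsmall : ∀ᶠ n : ℕ in atTop, (8 * B) * (Real.log n / Real.sqrt n) < δ := by
    have h1 := hlogdiv.const_mul (8 * B)
    rw [mul_zero] at h1
    exact h1.eventually (gt_mem_nhds hδ)
  have hbig : ∀ᶠ n : ℕ in atTop, 16 * B / δ ≤ Real.log n :=
    (Real.tendsto_log_atTop.comp tendsto_natCast_atTop_atTop).eventually_ge_atTop _
  filter_upwards [hR 3 δ (by norm_num) hδ, hR 3 1 (by norm_num) one_pos, hK B δ hB1 hδ,
    hW B (1 / 4) hB1 (by norm_num), hTEL B δ hB1 hδ, upp_far hG hR, hsmall, hbig,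
    eventually_ge_atTop 9] with n hn hn' hk hw htel hfar hsm hbg hn3
  have hn1 : 1 ≤ n := by omega
  have h0 : (0 : ℝ) < n := by exact_mod_cast hn1
  have h3n : (9 : ℝ) ≤ n := by exact_mod_cast hn3
  have hlog : 0 < Real.log n := Real.log_pos (by linarith)
  have hp : (0 : ℝ) < pn n := by exact_mod_cast upp_pn_pos n
  have hsq : 1 ≤ Real.sqrt n := by
    rw [Real.one_le_sqrt]
    exact_mod_cast hn1
  have hsq0 : 0 < Real.sqrt n := by linarith
  have hal := upp_al_pos hn1
  have hal1 : al n ≤ 1 / 2 := by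
    have h1 := upp_al_mul hn1
    have h2 := upp_const.2
    have h3 : (3 : ℝ) ≤ Real.sqrt n := by
      rw [Real.le_sqrt (by norm_num) h0.le]
      linarith
    by_contra hcon
    rw [not_le] at hcon
    nlinarith
  -- x = exp (-al n)
  have hx0 : 0 < Real.exp (-(al n)) := Real.exp_pos _
  have hx1 : Real.exp (-(al n)) ≤ 1 - al n / 2 := by
    have h1 := Real.abs_exp_sub_one_sub_id_le (x := -(al n)) (by
      rw [abs_neg, abs_of_pos hal]
      linarith)
    have h2 := (abs_le.1 h1).2
    nlinarith
  set S := (Finset.Icc 1 n).filter (fun t : ℕ => Real.sqrt n ≤ t ∧ 1 / B ≤ EE n t ∧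
      EE n t ≤ B) with hS
  have hSn : ∀ t ∈ S, 1 ≤ t ∧ t ≤ n := by
    intro t ht
    rw [hS, Finset.mem_filter, Finset.mem_Icc] at ht
    exact ht.1
  have hmain : ∀ t ∈ S, (1 - 3 * δ) * (EE n t / t) * (Real.exp (-(EE n t)) - δ) ≤
      ((pn (n - t) : ℝ) / pn n -
    ∑ s ∈ (Finset.Ioc t n).filter (fun s => t + s ≤ n), (pn (n - t - s) : ℝ) / pn n) *
      ((cn t n : ℝ) / pn n) := by
    intro t ht
    obtain ⟨ht1, htn⟩ := hSn t ht
    rw [hS, Finset.mem_filter] at ht
    obtain ⟨-, hst, hEl, hEu⟩ := ht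
    obtain ⟨hw1, hw2, -, -, -, -⟩ := hw t hst hEl hEu
    have ht0 : (0 : ℝ) < t := by exact_mod_cast ht1
    have he : EE n t / t = Real.exp (-(al n) * t) := by
      unfold EE
      field_simp
    have hEpos : 0 < EE n t := by
      unfold EE
      positivity
    set y := Real.exp (-(al n) * t) with hy
    have hy0 : 0 < y := Real.exp_pos _
    -- r
    have hr : (1 - δ) * y ≤ (pn (n - t) : ℝ) / pn n := by
      have h1 : (t : ℝ) ≤ 3 * Real.sqrt n * Real.log n := by nlinarith [mul_pos hsq0 hlog]
      have h2 := (abs_le.1 (hn t h1).2.2).1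
      linarith
    -- inner sum
    have hin : ∑ s ∈ (Finset.Ioc t n).filter (fun s => t + s ≤ n), (pn (n - t - s) : ℝ) / pn n
        ≤ 2 * δ * y := by
      have h1 : ∀ s ∈ Finset.Ioc t n, (if t + s ≤ n then (pn (n - t - s) : ℝ) / pn n else 0) ≤
          2 * (y * Real.exp (-(al n)) ^ s) + 8 / (n : ℝ) ^ 2 := by
        intro s _
        have hpos1 : 0 ≤ 2 * (y * Real.exp (-(al n)) ^ s) := by positivity
        have hpos2 : 0 ≤ 8 / (n : ℝ) ^ 2 := by positivity
        split_ifs with hts
        · rw [Nat.sub_sub]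
          by_cases hc : ((t + s : ℕ) : ℝ) ≤ 3 * Real.sqrt n * Real.log n
          · have h2 := (abs_le.1 (hn' (t + s) hc).2.2).2
            have h3 : Real.exp (-(al n) * ((t + s : ℕ) : ℝ)) = y * Real.exp (-(al n)) ^ s := by
              rw [← Real.exp_nat_mul, hy, ← Real.exp_add]
              congr 1
              push_cast
              ring
            rw [h3] at h2
            linarith
          · rw [not_le] at hc
            have h2 := hfar (t + s) (by nlinarith [mul_pos hsq0 hlog])
            linarith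
        · linarith
      rw [Finset.sum_filter]
      refine (Finset.sum_le_sum h1).trans ?_
      rw [Finset.sum_add_distrib, Finset.sum_const, nsmul_eq_mul, Nat.card_Ioc, ← Finset.mul_sum,
        ← Finset.mul_sum]
      have h2 := lob_geom hx0 (by linarith : Real.exp (-(al n)) < 1) t n
      have h3 : Real.exp (-(al n)) ^ t = y := by
        rw [← Real.exp_nat_mul, hy]
        congr 1
        ring
      rw [h3] at h2
      have h4 : y / (1 - Real.exp (-(al n))) ≤ δ / 2 := by
        have h5 : al n / 2 ≤ 1 - Real.exp (-(al n)) := by linarith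
        have h6 : y / (1 - Real.exp (-(al n))) ≤ y / (al n / 2) :=
          div_le_div_of_nonneg_left hy0.le (by positivity) h5
        refine h6.trans ?_
        rw [div_le_iff₀ (by positivity)]
        -- y ≤ δ/2 * (al/2) ; y = E / t, al * t ≥ log n / 4
        have h7 : y * t = EE n t := by
          rw [← he]
          field_simp
        have h8 : 16 * B ≤ δ * Real.log n := by
          rw [div_le_iff₀ hδ] at hbg
          linarith
        have h9 : (1 / 2 - 1 / 4) * Real.log n ≤ al n * t := hw2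
        have h10 : y * t ≤ δ / 2 * (al n / 2) * t := by
          rw [h7]
          nlinarith
        exact le_of_mul_le_mul_right h10 ht0
      have h5 : ((n - t : ℕ) : ℝ) * (8 / (n : ℝ) ^ 2) ≤ δ * y := by
        have h6 : ((n - t : ℕ) : ℝ) ≤ n := by exact_mod_cast Nat.sub_le _ _
        calc ((n - t : ℕ) : ℝ) * (8 / (n : ℝ) ^ 2) ≤ n * (8 / (n : ℝ) ^ 2) :=
              mul_le_mul_of_nonneg_right h6 (by positivity)
          _ = 8 / n := by field_simp
          _ ≤ δ * y := by
              have h7 : y * t = EE n t := by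
                rw [← he]
                field_simp
              -- y ≥ 1/(B t) ≥ 1/(B √n log n)
              have h8 : 1 ≤ B * (y * t) := by
                rw [h7]
                rw [div_le_iff₀ hB0] at hEl
                linarith
              have h9 : 1 ≤ B * y * (Real.sqrt n * Real.log n) := by
                calc 1 ≤ B * (y * t) := h8
                  _ = B * y * t := by ring
                  _ ≤ B * y * (Real.sqrt n * Real.log n) :=
                    mul_le_mul_of_nonneg_left hw1 (by positivity)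
              have h10 : 8 * B * Real.log n < δ * Real.sqrt n := by
                have h11 : (8 * B) * (Real.log n / Real.sqrt n) = 8 * B * Real.log n /
                  Real.sqrt n := by ring
                rw [h11, div_lt_iff₀ hsq0] at hsm
                exact hsm
              rw [div_le_iff₀ h0]
              have h12 : Real.sqrt n * Real.sqrt n = n := Real.mul_self_sqrt h0.le
              calc (8 : ℝ) = 8 * 1 := by ring
                _ ≤ 8 * (B * y * (Real.sqrt n * Real.log n)) := by linarith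
                _ = (8 * B * Real.log n) * (y * Real.sqrt n) := by ring
                _ ≤ (δ * Real.sqrt n) * (y * Real.sqrt n) :=
                    mul_le_mul_of_nonneg_right h10.le (by positivity)
                _ = δ * y * (Real.sqrt n * Real.sqrt n) := by ring
                _ = δ * y * n := by rw [h12]
      have h6 : 2 * (y * ∑ i ∈ Finset.Ioc t n, Real.exp (-(al n)) ^ i) ≤ δ * y := by
        have h7 : ∑ i ∈ Finset.Ioc t n, Real.exp (-(al n)) ^ i ≤ δ / 2 := h2.trans h4
        nlinarith
      linarith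
    have hκ0 : (0 : ℝ) ≤ (cn t n : ℝ) / pn n := by positivity
    have hκ : Real.exp (-(EE n t)) - δ ≤ (cn t n : ℝ) / pn n := by
      have := (abs_le.1 (hk t hst hEl hEu)).1
      linarith
    have hlow : (1 - 3 * δ) * y ≤ (pn (n - t) : ℝ) / pn n -
        ∑ s ∈ (Finset.Ioc t n).filter (fun s => t + s ≤ n), (pn (n - t - s) : ℝ) / pn n := by
      linarith
    have h13 : 0 ≤ (1 - 3 * δ) * y := mul_nonneg (by linarith) hy0.le
    calc (1 - 3 * δ) * (EE n t / t) * (Real.exp (-(EE n t)) - δ)
        = (1 - 3 * δ) * y * (Real.exp (-(EE n t)) - δ) := by rw [he]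
      _ ≤ (1 - 3 * δ) * y * ((cn t n : ℝ) / pn n) := mul_le_mul_of_nonneg_left hκ h13
      _ ≤ _ := mul_le_mul_of_nonneg_right hlow hκ0
  have hsum := (Finset.sum_le_sum hmain).trans (hZ n S hn1 hSn)
  have heq : ∑ t ∈ S, (1 - 3 * δ) * (EE n t / t) * (Real.exp (-(EE n t)) - δ) =
      (1 - 3 * δ) * (∑ t ∈ S, EE n t / t * Real.exp (-(EE n t)) - δ * ∑ t ∈ S, EE n t / t) := by
    rw [Finset.mul_sum, ← Finset.sum_sub_distrib, Finset.mul_sum]
    refine Finset.sum_congr rfl fun t _ => ?_
    ring
  rw [heq] at hsum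
  have t1 : (2 * (Real.exp (-(1 / B)) - Real.exp (-B)) - δ) / Real.log n ≤
      ∑ t ∈ S, EE n t / t * Real.exp (-(EE n t)) := htel.2.1
  have t2 : ∑ t ∈ S, EE n t / t ≤ (2 * B + δ) / Real.log n := htel.2.2
  have h14 : (1 - 3 * δ) * ((2 * (Real.exp (-(1 / B)) - Real.exp (-B)) - δ) / Real.log n -
      δ * ((2 * B + δ) / Real.log n)) ≤ zI n := by
    refine le_trans ?_ hsum
    apply mul_le_mul_of_nonneg_left _ (by linarith)
    have h15 : δ * ∑ t ∈ S, EE n t / t ≤ δ * ((2 * B + δ) / Real.log n) :=
      mul_le_mul_of_nonneg_left t2 hδ.le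
    linarith
  have h16 : (1 - 3 * δ) * ((2 * (Real.exp (-(1 / B)) - Real.exp (-B)) - δ) / Real.log n -
      δ * ((2 * B + δ) / Real.log n)) = ((1 - 3 * δ) *
      ((2 * (Real.exp (-(1 / B)) - Real.exp (-B)) - δ) - δ * (2 * B + δ))) / Real.log n := by
    field_simp
  rw [h16, div_le_iff₀ hlog] at h14
  exact hδε.trans h14

end Pool.Agent.Helper79.ZC
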