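import Pool.Agent.Helper79.ZC.UPDN

set_option autoImplicit false

/-! Module MOV: moving `j` beads. -/

namespace Pool.Agent.Helper79.ZC

open scoped Classical

theorem mov_D_up {t : ℕ} {X S : Finset ℕ} (hS : S ⊆ dn t X) :
    S.image (fun x => x - t) ⊆ up t (updnD t X S) := by
  intro y hy
  rw [Finset.mem_image] at hy
  obtain ⟨x, hx, rfl⟩ := hy
  obtain ⟨h1, h2, h3⟩ := updn_dn_mem hS hx
  unfold up updnD
  rw [Finset.mem_filter, Nat.sub_add_cancel h2]
  constructor
  · exact Finset.mem_union_right _ (Finset.mem_image_of_mem _ hx)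
  · intro hc
    rcases Finset.mem_union.1 hc with hc | hc
    · exact (Finset.mem_sdiff.1 hc).2 hx
    · exact Finset.disjoint_left.1 (updn_D_disj hS) h1 hc

theorem mov_U_dn {t : ℕ} {X S : Finset ℕ} (hS : S ⊆ up t X) :
    S.image (fun x => x + t) ⊆ dn t (updnU t X S) := by
  intro y hy
  rw [Finset.mem_image] at hy
  obtain ⟨x, hx, rfl⟩ := hy
  obtain ⟨h1, h3⟩ := updn_up_mem hS hx
  unfold dn updnU
  rw [Finset.mem_filter, Nat.add_sub_cancel]
  refine ⟨?_, by omega, ?_⟩
  · exact Finset.mem_union_right _ (Finset.mem_image_of_mem _ hx)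
  · intro hc
    rcases Finset.mem_union.1 hc with hc | hc
    · exact (Finset.mem_sdiff.1 hc).2 hx
    · exact Finset.disjoint_left.1 (updn_U_disj hS) h1 hc

theorem mov_image_DU {t : ℕ} {X S : Finset ℕ} (hS : S ⊆ dn t X) :
    (S.image (fun x => x - t)).image (fun x => x + t) = S := by
  rw [Finset.image_image]
  have : S.image ((fun x => x + t) ∘ fun x => x - t) = S.image id := by
    apply Finset.image_congr
    intro x hx
    show x - t + t = x
    exact Nat.sub_add_cancel (updn_dn_mem hS hx).2.1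
  rw [this, Finset.image_id]

theorem mov_image_UD (t : ℕ) (S : Finset ℕ) :
    (S.image (fun x => x + t)).image (fun x => x - t) = S := by
  rw [Finset.image_image]
  have : S.image ((fun x => x - t) ∘ fun x => x + t) = S.image id := by
    apply Finset.image_congr
    intro x _
    show x + t - t = x
    exact Nat.add_sub_cancel x t
  rw [this, Finset.image_id]

theorem mov_UD {t : ℕ} {X S : Finset ℕ} (hS : S ⊆ dn t X) :
    updnU t (updnD t X S) (S.image (fun x => x - t)) = X := by
  have hSX : S ⊆ X := fun x hx => (updn_dn_mem hS hx).1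
  unfold updnU
  rw [mov_image_DU hS]
  unfold updnD
  rw [Finset.union_sdiff_right, Finset.sdiff_eq_self_of_disjoint
    ((updn_D_disj hS).mono_left Finset.sdiff_subset), Finset.sdiff_union_of_subset hSX]

theorem mov_DU {t : ℕ} {X S : Finset ℕ} (hS : S ⊆ up t X) :
    updnD t (updnU t X S) (S.image (fun x => x + t)) = X := by
  have hSX : S ⊆ X := fun x hx => (updn_up_mem hS hx).1
  unfold updnD
  rw [mov_image_UD]
  unfold updnU
  rw [Finset.union_sdiff_right, Finset.sdiff_eq_self_of_disjoint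
    ((updn_U_disj hS).mono_left Finset.sdiff_subset), Finset.sdiff_union_of_subset hSX]

/-- **Module MOV.** -/
theorem st_MOV : ST_MOV := by
  intro M n t j _
  have h1 : ∀ X : Finset ℕ, ((dn t X).card).choose j = ((dn t X).powersetCard j).card :=
    fun X => (Finset.card_powersetCard j _).symm
  have h2 : ∀ X : Finset ℕ, ((up t X).card).choose j = ((up t X).powersetCard j).card :=
    fun X => (Finset.card_powersetCard j _).symm
  simp only [h1, h2]
  rw [← Finset.card_sigma, ← Finset.card_sigma]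
  refine Finset.card_bij'
    (fun q _ => (⟨updnD t q.1 q.2, q.2.image (fun x => x - t)⟩ : (_ : Finset ℕ) × Finset ℕ))
    (fun q _ => (⟨updnU t q.1 q.2, q.2.image (fun x => x + t)⟩ : (_ : Finset ℕ) × Finset ℕ))
    ?_ ?_ ?_ ?_
  · rintro ⟨X, S⟩ hq
    rw [Finset.mem_sigma, Finset.mem_powersetCard] at hq
    obtain ⟨hX, hS, hSj⟩ := hq
    obtain ⟨h3, h4⟩ := updn_mem_bs.1 hX
    rw [Finset.mem_sigma, Finset.mem_powersetCard]
    have h5 : ∑ x ∈ updnD t X S, x + S.card * t = ∑ x ∈ X, x := updn_D_sum hS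
    have h6 := updn_D_card hS
    refine ⟨updn_mem_bs.2 ⟨h6.trans h3, ?_⟩, mov_D_up hS, ?_⟩
    · show ∑ x ∈ updnD t X S, x = _
      have hSj' : S.card = j := hSj
      rw [hSj'] at h5
      have h4' : ∑ x ∈ X, x = ∑ i ∈ Finset.range M, i + (n + j * t) := h4
      omega
    · show (S.image (fun x => x - t)).card = j
      rw [Finset.card_image_of_injOn (updn_D_inj hS)]
      exact hSj
  · rintro ⟨X, S⟩ hq
    rw [Finset.mem_sigma, Finset.mem_powersetCard] at hq
    obtain ⟨hX, hS, hSj⟩ := hq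
    obtain ⟨h3, h4⟩ := updn_mem_bs.1 hX
    rw [Finset.mem_sigma, Finset.mem_powersetCard]
    have h5 : ∑ x ∈ updnU t X S, x = ∑ x ∈ X, x + S.card * t := updn_U_sum hS
    have h6 := updn_U_card hS
    refine ⟨updn_mem_bs.2 ⟨h6.trans h3, ?_⟩, mov_U_dn hS, ?_⟩
    · show ∑ x ∈ updnU t X S, x = _
      have hSj' : S.card = j := hSj
      rw [hSj'] at h5
      have h4' : ∑ x ∈ X, x = ∑ i ∈ Finset.range M, i + n := h4
      omega
    · show (S.image (fun x => x + t)).card = j
      rw [Finset.card_image_of_injOn (updn_U_inj S)]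
      exact hSj
  · rintro ⟨X, S⟩ hq
    rw [Finset.mem_sigma, Finset.mem_powersetCard] at hq
    obtain ⟨hX, hS, hSj⟩ := hq
    show (⟨updnU t (updnD t X S) (S.image (fun x => x - t)),
      (S.image (fun x => x - t)).image (fun x => x + t)⟩ : (_ : Finset ℕ) × Finset ℕ) = ⟨X, S⟩
    rw [mov_UD hS, mov_image_DU hS]
  · rintro ⟨X, S⟩ hq
    rw [Finset.mem_sigma, Finset.mem_powersetCard] at hq
    obtain ⟨hX, hS, hSj⟩ := hq
    show (⟨updnD t (updnU t X S) (S.image (fun x => x + t)),
      (S.image (fun x => x + t)).image (fun x => x - t)⟩ : (_ : Finset ℕ) × Finset ℕ) = ⟨X, S⟩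
    rw [mov_DU hS, mov_image_UD]

end Pool.Agent.Helper79.ZC
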