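import Pool.Agent.Helper79.ZC.Stmts

set_option autoImplicit false

/-! Module UPDN: the number of movable beads. -/

namespace Pool.Agent.Helper79.ZC

open scoped Classical

theorem updn_sum_le : ∀ (k : ℕ) (X : Finset ℕ), X.card = k →
    ∑ i ∈ Finset.range k, i ≤ ∑ x ∈ X, x := by
  intro k
  induction k with
  | zero =>
    intro X _
    simp
  | succ k ih =>
    intro X hX
    have hne : X.Nonempty := by
      rw [← Finset.card_pos]
      omega
    have hmem := X.max'_mem hne
    set m := X.max' hne with hm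
    have h1 : X ⊆ Finset.range (m + 1) := by
      intro x hx
      rw [Finset.mem_range]
      have := X.le_max' x hx
      omega
    have h2 := Finset.card_le_card h1
    rw [Finset.card_range, hX] at h2
    have h3 : (X.erase m).card = k := by
      rw [Finset.card_erase_of_mem hmem, hX]
      omega
    have h4 := ih (X.erase m) h3
    have h5 := Finset.add_sum_erase X (fun x => x) hmem
    rw [Finset.sum_range_succ]
    have h6 : m + ∑ x ∈ X.erase m, x = ∑ x ∈ X, x := h5
    omega

theorem updn_mem_bs {M n : ℕ} {X : Finset ℕ} :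
    X ∈ bs M n ↔ X.card = M ∧ ∑ x ∈ X, x = ∑ i ∈ Finset.range M, i + n := by
  unfold bs
  rw [Finset.mem_filter, Finset.mem_powersetCard]
  constructor
  · rintro ⟨⟨-, h1⟩, h2⟩
    exact ⟨h1, h2⟩
  · rintro ⟨h1, h2⟩
    refine ⟨⟨?_, h1⟩, h2⟩
    intro x hx
    rw [Finset.mem_range]
    have h3 : (X.erase x).card = M - 1 := by
      rw [Finset.card_erase_of_mem hx, h1]
    have h4 := updn_sum_le (M - 1) (X.erase x) h3
    have h5 : x + ∑ y ∈ X.erase x, y = ∑ y ∈ X, y := Finset.add_sum_erase X (fun x => x) hx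
    have hM : 0 < M := by
      rw [← h1, Finset.card_pos]
      exact ⟨x, hx⟩
    obtain ⟨k, rfl⟩ := Nat.exists_eq_add_of_le' hM
    rw [Finset.sum_range_succ] at h2
    rw [Nat.add_sub_cancel] at h4
    omega

theorem updn_range_sub {M n t : ℕ} (h : n + t ≤ M) {X : Finset ℕ} (hX : X ∈ bs M n) :
    Finset.range t ⊆ X := by
  obtain ⟨h1, h2⟩ := updn_mem_bs.1 hX
  intro y hy
  rw [Finset.mem_range] at hy
  by_contra hcon
  have h3 : (insert y X).card = M + 1 := by
    rw [Finset.card_insert_of_notMem hcon, h1]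
  have h4 := updn_sum_le (M + 1) (insert y X) h3
  rw [Finset.sum_insert hcon, Finset.sum_range_succ, h2] at h4
  omega

/-- move the beads in `S` down by `t` -/
noncomputable def updnD (t : ℕ) (X S : Finset ℕ) : Finset ℕ := (X \ S) ∪ S.image (fun x => x - t)

/-- move the beads in `S` up by `t` -/
noncomputable def updnU (t : ℕ) (X S : Finset ℕ) : Finset ℕ := (X \ S) ∪ S.image (fun x => x + t)

theorem updn_dn_mem {t : ℕ} {X S : Finset ℕ} (hS : S ⊆ dn t X) {x : ℕ} (hx : x ∈ S) :
    x ∈ X ∧ t ≤ x ∧ x - t ∉ X := by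
  have := hS hx
  unfold dn at this
  rw [Finset.mem_filter] at this
  exact this

theorem updn_up_mem {t : ℕ} {X S : Finset ℕ} (hS : S ⊆ up t X) {x : ℕ} (hx : x ∈ S) :
    x ∈ X ∧ x + t ∉ X := by
  have := hS hx
  unfold up at this
  rw [Finset.mem_filter] at this
  exact this

theorem updn_D_disj {t : ℕ} {X S : Finset ℕ} (hS : S ⊆ dn t X) :
    Disjoint X (S.image (fun x => x - t)) := by
  rw [Finset.disjoint_right]
  intro y hy
  rw [Finset.mem_image] at hy
  obtain ⟨x, hx, rfl⟩ := hy
  exact (updn_dn_mem hS hx).2.2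

theorem updn_U_disj {t : ℕ} {X S : Finset ℕ} (hS : S ⊆ up t X) :
    Disjoint X (S.image (fun x => x + t)) := by
  rw [Finset.disjoint_right]
  intro y hy
  rw [Finset.mem_image] at hy
  obtain ⟨x, hx, rfl⟩ := hy
  exact (updn_up_mem hS hx).2

theorem updn_D_inj {t : ℕ} {X S : Finset ℕ} (hS : S ⊆ dn t X) :
    Set.InjOn (fun x => x - t) (S : Set ℕ) := by
  intro a ha b hb hab
  have h1 := (updn_dn_mem hS ha).2.1
  have h2 := (updn_dn_mem hS hb).2.1
  have h3 : a - t = b - t := hab
  omega

theorem updn_U_inj {t : ℕ} (S : Finset ℕ) : Set.InjOn (fun x => x + t) (S : Set ℕ) := by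
  intro a _ b _ hab
  have h3 : a + t = b + t := hab
  omega

theorem updn_D_card {t : ℕ} {X S : Finset ℕ} (hS : S ⊆ dn t X) :
    (updnD t X S).card = X.card := by
  have hSX : S ⊆ X := fun x hx => (updn_dn_mem hS hx).1
  unfold updnD
  rw [Finset.card_union_of_disjoint, Finset.card_image_of_injOn (updn_D_inj hS),
    Finset.card_sdiff_of_subset hSX]
  · have := Finset.card_le_card hSX
    omega
  · exact (updn_D_disj hS).mono_left Finset.sdiff_subset

theorem updn_U_card {t : ℕ} {X S : Finset ℕ} (hS : S ⊆ up t X) :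
    (updnU t X S).card = X.card := by
  have hSX : S ⊆ X := fun x hx => (updn_up_mem hS hx).1
  unfold updnU
  rw [Finset.card_union_of_disjoint, Finset.card_image_of_injOn (updn_U_inj S),
    Finset.card_sdiff_of_subset hSX]
  · have := Finset.card_le_card hSX
    omega
  · exact (updn_U_disj hS).mono_left Finset.sdiff_subset

theorem updn_D_sum {t : ℕ} {X S : Finset ℕ} (hS : S ⊆ dn t X) :
    ∑ x ∈ updnD t X S, x + S.card * t = ∑ x ∈ X, x := by
  have hSX : S ⊆ X := fun x hx => (updn_dn_mem hS hx).1
  unfold updnD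
  rw [Finset.sum_union ((updn_D_disj hS).mono_left Finset.sdiff_subset),
    Finset.sum_image (updn_D_inj hS)]
  have h1 : ∑ x ∈ S, (x - t) + S.card * t = ∑ x ∈ S, x := by
    rw [← smul_eq_mul, ← Finset.sum_const, ← Finset.sum_add_distrib]
    refine Finset.sum_congr rfl fun x hx => ?_
    have := (updn_dn_mem hS hx).2.1
    omega
  have h2 := Finset.sum_sdiff (f := fun x : ℕ => x) hSX
  have h3 : ∑ x ∈ X \ S, x + ∑ x ∈ S, x = ∑ x ∈ X, x := h2
  omega

theorem updn_U_sum {t : ℕ} {X S : Finset ℕ} (hS : S ⊆ up t X) :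
    ∑ x ∈ updnU t X S, x = ∑ x ∈ X, x + S.card * t := by
  have hSX : S ⊆ X := fun x hx => (updn_up_mem hS hx).1
  unfold updnU
  rw [Finset.sum_union ((updn_U_disj hS).mono_left Finset.sdiff_subset),
    Finset.sum_image (updn_U_inj S)]
  have h1 : ∑ x ∈ S, (x + t) = ∑ x ∈ S, x + S.card * t := by
    rw [Finset.sum_add_distrib, Finset.sum_const, smul_eq_mul]
  have h2 := Finset.sum_sdiff (f := fun x : ℕ => x) hSX
  have h3 : ∑ x ∈ X \ S, x + ∑ x ∈ S, x = ∑ x ∈ X, x := h2
  omega

/-- **Module UPDN.** -/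
theorem st_UPDN : ST_UPDN := by
  intro M n t _ h X hX
  obtain ⟨h1, h2⟩ := updn_mem_bs.1 hX
  have hr := updn_range_sub h hX
  constructor
  · -- counting
    have a1 := Finset.card_filter_add_card_filter_not (s := X) (fun x => x + t ∉ X)
    have a2 := Finset.card_filter_add_card_filter_not (s := X) (fun x => t ≤ x ∧ x - t ∉ X)
    have a3 : (X.filter (fun x => ¬ (t ≤ x ∧ x - t ∉ X))).card =
        t + (X.filter (fun x => t ≤ x ∧ x - t ∈ X)).card := by
      have h3 : X.filter (fun x => ¬ (t ≤ x ∧ x - t ∉ X)) =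
          Finset.range t ∪ X.filter (fun x => t ≤ x ∧ x - t ∈ X) := by
        ext x
        rw [Finset.mem_filter, Finset.mem_union, Finset.mem_range, Finset.mem_filter]
        constructor
        · rintro ⟨hx, hn⟩
          by_cases hxt : x < t
          · exact Or.inl hxt
          · right
            refine ⟨hx, by omega, ?_⟩
            by_contra hc
            exact hn ⟨by omega, hc⟩
        · rintro (hx | ⟨hx, h5, h6⟩)
          · refine ⟨hr (Finset.mem_range.2 hx), fun hc => ?_⟩
            omega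
          · exact ⟨hx, fun hc => hc.2 h6⟩
      rw [h3, Finset.card_union_of_disjoint, Finset.card_range]
      rw [Finset.disjoint_left]
      intro x hx hx'
      rw [Finset.mem_range] at hx
      rw [Finset.mem_filter] at hx'
      omega
    have a4 : (X.filter (fun x => ¬ (x + t ∉ X))).card =
        (X.filter (fun x => t ≤ x ∧ x - t ∈ X)).card := by
      refine Finset.card_bij' (fun x _ => x + t) (fun x _ => x - t) ?_ ?_ ?_ ?_
      · intro x hx
        rw [Finset.mem_filter, not_not] at hx
        rw [Finset.mem_filter, Nat.add_sub_cancel]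
        exact ⟨hx.2, by omega, hx.1⟩
      · intro x hx
        rw [Finset.mem_filter] at hx
        rw [Finset.mem_filter, not_not, Nat.sub_add_cancel hx.2.1]
        exact ⟨hx.2.2, hx.1⟩
      · intro x _
        exact Nat.add_sub_cancel x t
      · intro x hx
        rw [Finset.mem_filter] at hx
        exact Nat.sub_add_cancel hx.2.1
    unfold up dn
    omega
  · have h3 := updn_D_card (S := dn t X) (X := X) (t := t) subset_rfl
    have h4 := updn_D_sum (S := dn t X) (X := X) (t := t) subset_rfl
    have h5 := updn_sum_le M _ (h3.trans h1)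
    omega

end Pool.Agent.Helper79.ZC
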