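import Pool.Agent.Helper79.ZC.Stmts

set_option autoImplicit false

/-! Module UPP: upper bound for the density of the zeros of type II. -/

namespace Pool.Agent.Helper79.ZC

open scoped Classical
open Filter Topology MeasureTheory

theorem upp_pn_pos (n : ℕ) : 0 < pn n := Fintype.card_pos

theorem upp_cn_le (t n : ℕ) : cn t n ≤ pn n := by
  unfold cn pn
  exact (Finset.card_filter_le _ _).trans (le_of_eq Finset.card_univ)

theorem upp_al_pos {n : ℕ} (hn : 1 ≤ n) : 0 < al n := by
  have : (0 : ℝ) < n := by exact_mod_cast hn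
  unfold al
  positivity

theorem upp_al_mul {n : ℕ} (hn : 1 ≤ n) : al n * Real.sqrt n = Real.pi / Real.sqrt 6 := by
  have h0 : (0 : ℝ) < n := by exact_mod_cast hn
  unfold al
  rw [Real.sqrt_mul (by norm_num)]
  field_simp

theorem upp_const : (6 / 5 : ℝ) < Real.pi / Real.sqrt 6 ∧ Real.pi / Real.sqrt 6 < 13 / 10 := by
  have h6 : (2.449 : ℝ) < Real.sqrt 6 := by
    rw [Real.lt_sqrt (by norm_num)]
    norm_num
  have h6' : Real.sqrt 6 < 2.4496 := by
    rw [Real.sqrt_lt' (by norm_num)]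
    norm_num
  have hs : 0 < Real.sqrt 6 := by positivity
  constructor
  · rw [lt_div_iff₀ hs]
    nlinarith [Real.pi_gt_d4]
  · rw [div_lt_iff₀ hs]
    nlinarith [Real.pi_lt_d4]

/-- the far tail -/
theorem upp_far (hG : ST_GF) (hR : ST_RAT) : ∀ᶠ n : ℕ in atTop,
    ∀ t : ℕ, 2 * Real.sqrt n * Real.log n < t → (pn (n - t) : ℝ) / pn n ≤ 8 / (n : ℝ) ^ 2 := by
  filter_upwards [hR 2 1 (by norm_num) one_pos, eventually_ge_atTop 3] with n hn hn3 t ht
  have h0 : (0 : ℝ) < n := by
    have : 0 < n := by omega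
    exact_mod_cast this
  have hlog : 0 < Real.log n := Real.log_pos (by
    have : (3 : ℝ) ≤ n := by exact_mod_cast hn3
    linarith)
  set s := ⌊2 * Real.sqrt n * Real.log n⌋₊ with hs
  have hnn : 0 ≤ 2 * Real.sqrt n * Real.log n := by positivity
  have hs1 : (s : ℝ) ≤ 2 * Real.sqrt n * Real.log n := Nat.floor_le hnn
  have hs2 : 2 * Real.sqrt n * Real.log n < s + 1 := Nat.lt_floor_add_one _
  obtain ⟨hsn, -, h2⟩ := hn s hs1
  have hst : s ≤ t := by
    have : (s : ℝ) < t := hs1.trans_lt ht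
    exact_mod_cast this.le
  have hp : (0 : ℝ) < pn n := by exact_mod_cast upp_pn_pos n
  have hmono : (pn (n - t) : ℝ) ≤ pn (n - s) := by
    exact_mod_cast hG.2.2 _ _ (by omega)
  have h3 : (pn (n - s) : ℝ) / pn n ≤ 2 * Real.exp (-(al n) * s) := by
    have := (abs_le.1 h2).2
    linarith
  have hal := upp_al_pos (n := n) (by omega)
  have hmul := upp_al_mul (n := n) (by omega)
  have hc := upp_const
  have hsq : 1 ≤ Real.sqrt n := by
    rw [Real.one_le_sqrt]
    exact_mod_cast (by omega : 1 ≤ n)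
  have halle : al n ≤ 13 / 10 := by
    have : al n * 1 ≤ al n * Real.sqrt n := by
      apply mul_le_mul_of_nonneg_left hsq hal.le
    linarith
  have h4 : -(al n) * s ≤ 13 / 10 - 2 * Real.log n := by
    have h5 : al n * (2 * Real.sqrt n * Real.log n) ≤ al n * (s + 1) :=
      mul_le_mul_of_nonneg_left hs2.le hal.le
    have h6 : al n * (2 * Real.sqrt n * Real.log n) = 2 * (Real.pi / Real.sqrt 6) * Real.log n := by
      rw [← hmul]
      ring
    have h7 : 2 * 1 * Real.log n ≤ 2 * (Real.pi / Real.sqrt 6) * Real.log n := by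
      apply mul_le_mul_of_nonneg_right _ hlog.le
      linarith
    nlinarith
  have h8 : Real.exp (-(al n) * s) ≤ 4 / (n : ℝ) ^ 2 := by
    calc Real.exp (-(al n) * s) ≤ Real.exp (13 / 10 - 2 * Real.log n) := Real.exp_le_exp.2 h4
      _ = Real.exp (13 / 10) / (n : ℝ) ^ 2 := by
          rw [Real.exp_sub]
          congr 1
          rw [show 2 * Real.log n = Real.log n + Real.log n by ring, Real.exp_add,
            Real.exp_log h0]
          ring
      _ ≤ 4 / (n : ℝ) ^ 2 := by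
          apply div_le_div_of_nonneg_right _ (by positivity)
          have h9 : Real.exp (13 / 10) ≤ 4 := by
            have h10 : Real.exp (13 / 10) = Real.exp 1 * Real.exp (3 / 10) := by
              rw [← Real.exp_add]
              norm_num
            have h11 : Real.exp (3 / 10) ≤ 1.36 := by
              have := Real.exp_bound' (x := 3 / 10) (by norm_num) (by norm_num) (n := 3)
                (by norm_num)
              norm_num [Finset.sum_range_succ, Nat.factorial] at this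
              linarith
            rw [h10]
            have h12 := Real.exp_one_lt_d9
            have h13 := Real.exp_pos (3 / 10)
            nlinarith [Real.exp_pos 1]
          exact h9
  calc (pn (n - t) : ℝ) / pn n ≤ (pn (n - s) : ℝ) / pn n :=
        div_le_div_of_nonneg_right hmono hp.le
    _ ≤ 2 * Real.exp (-(al n) * s) := h3
    _ ≤ 2 * (4 / (n : ℝ) ^ 2) := by linarith
    _ = 8 / (n : ℝ) ^ 2 := by ring

/-- **Module UPP.** -/
theorem st_UPP (hZ : ST_ZII) (hG : ST_GF) (hR : ST_RAT) (hK : ST_KAP) (hT : ST_KAT)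
    (hTEL : ST_TEL) (hTAIL : ST_TAIL) : ST_UPP := by
  intro ε hε
  obtain ⟨C, hC, hT⟩ := hT
  obtain ⟨C', hC', hTAIL⟩ := hTAIL
  -- choose B and δ
  obtain ⟨B, hB1, hBε⟩ : ∃ B : ℝ, 1 < B ∧ (2 * C' + 2 * C * C') / B ≤ ε / 4 := by
    refine ⟨max 2 ((2 * C' + 2 * C * C') / (ε / 4)), ?_, ?_⟩
    · exact lt_of_lt_of_le (by norm_num) (le_max_left _ _)
    · rw [div_le_iff₀ (by positivity)]
      have := le_max_right 2 ((2 * C' + 2 * C * C') / (ε / 4))
      rw [div_le_iff₀ (by positivity)] at this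
      linarith
  have hB0 : 0 < B := by linarith
  obtain ⟨δ, hδ, hδ1, hδε⟩ : ∃ δ : ℝ, 0 < δ ∧ δ ≤ 1 ∧
      (1 + δ) * ((2 + δ) + δ * (2 * B + δ)) ≤ 2 + ε / 4 := by
    have hcont : Tendsto (fun δ : ℝ => (1 + δ) * ((2 + δ) + δ * (2 * B + δ))) (𝓝 0) (𝓝 2) := by
      have : Continuous fun δ : ℝ => (1 + δ) * ((2 + δ) + δ * (2 * B + δ)) := by fun_prop
      have h := this.tendsto 0
      simpa using h
    have hev := hcont.eventually (gt_mem_nhds (show (2 : ℝ) < 2 + ε / 4 by linarith))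
    obtain ⟨η, hη, hball⟩ := Metric.eventually_nhds_iff.1 hev
    refine ⟨min (η / 2) 1, lt_min (by linarith) one_pos, min_le_right _ _, ?_⟩
    refine (hball ?_).le
    rw [Real.dist_eq, sub_zero, abs_of_pos (lt_min (by linarith) one_pos)]
    exact (min_le_left _ _).trans_lt (by linarith)
  have hlogdiv : Tendsto (fun n : ℕ => Real.log n / Real.sqrt n) atTop (𝓝 0) := by
    have h1 : Tendsto (fun x : ℝ => Real.log x / x ^ (1 / 2 : ℝ)) atTop (𝓝 0) :=
      (isLittleO_log_rpow_atTop (by norm_num)).tendsto_div_nhds_zero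
    have h2 := h1.comp tendsto_natCast_atTop_atTop
    refine h2.congr fun n => ?_
    simp [Real.sqrt_eq_rpow]
  have hsmall : ∀ᶠ n : ℕ in atTop, (C + 8) * (Real.log n / Real.sqrt n) < ε / 4 := by
    have h1 := hlogdiv.const_mul (C + 8)
    rw [mul_zero] at h1
    exact h1.eventually (gt_mem_nhds (by linarith))
  filter_upwards [hR 2 δ (by norm_num) hδ, hK B δ hB1 hδ, hT, hTEL B δ hB1 hδ, hTAIL B hB1,
    upp_far hG hR, hsmall, eventually_ge_atTop 3] with n hn hk ht htel htail hfar hsm hn3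
  have hn1 : 1 ≤ n := by omega
  have h0 : (0 : ℝ) < n := by exact_mod_cast hn1
  have hlog : 0 < Real.log n := Real.log_pos (by
    have : (3 : ℝ) ≤ n := by exact_mod_cast hn3
    linarith)
  have hp : (0 : ℝ) < pn n := by exact_mod_cast upp_pn_pos n
  have hsq : 1 ≤ Real.sqrt n := by
    rw [Real.one_le_sqrt]
    exact_mod_cast hn1
  have hsq0 : 0 < Real.sqrt n := by linarith
  set r : ℕ → ℝ := fun t => (pn (n - t) : ℝ) / pn n with hr
  set κ : ℕ → ℝ := fun t => (cn t n : ℝ) / pn n with hκ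
  have hr0 : ∀ t, 0 ≤ r t := fun t => by positivity
  have hr1 : ∀ t, r t ≤ 1 := fun t => by
    rw [hr]
    show (pn (n - t) : ℝ) / pn n ≤ 1
    rw [div_le_one hp]
    exact_mod_cast hG.2.2 _ _ (Nat.sub_le _ _)
  have hκ0 : ∀ t, 0 ≤ κ t := fun t => by positivity
  have hκ1 : ∀ t, κ t ≤ 1 := fun t => by
    show (cn t n : ℝ) / pn n ≤ 1
    rw [div_le_one hp]
    exact_mod_cast upp_cn_le t n
  have hrE : ∀ t : ℕ, 1 ≤ t → (t : ℝ) ≤ 2 * Real.sqrt n * Real.log n →
      r t ≤ (1 + δ) * (EE n t / t) := by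
    intro t ht1 ht2
    have h1 := (abs_le.1 (hn t ht2).2.2).2
    have h2 : EE n t / t = Real.exp (-(al n) * t) := by
      have : (0 : ℝ) < t := by exact_mod_cast ht1
      unfold EE
      field_simp
    rw [h2]
    show (pn (n - t) : ℝ) / pn n ≤ _
    linarith
  have hEpos : ∀ t : ℕ, 1 ≤ t → 0 < EE n t := by
    intro t ht1
    have : (0 : ℝ) < t := by exact_mod_cast ht1
    unfold EE
    positivity
  -- the pointwise bound
  set S1 := (Finset.Icc 1 n).filter (fun t : ℕ => (t : ℝ) ≤ Real.sqrt n) with hS1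
  set S2 := (Finset.Icc 1 n).filter (fun t : ℕ => Real.sqrt n ≤ t ∧
      (t : ℝ) ≤ 2 * Real.sqrt n * Real.log n ∧ EE n t < 1 / B) with hS2
  set S3 := (Finset.Icc 1 n).filter (fun t : ℕ => Real.sqrt n ≤ t ∧
      (t : ℝ) ≤ 2 * Real.sqrt n * Real.log n ∧ B < EE n t) with hS3
  set S4 := (Finset.Icc 1 n).filter (fun t : ℕ => Real.sqrt n ≤ t ∧ 1 / B ≤ EE n t ∧
      EE n t ≤ B) with hS4
  have hsub : ∑ t ∈ Finset.Icc 1 n, r t * κ t ≤
      ∑ t ∈ S1, C / n + ∑ t ∈ S2, 2 * (EE n t / t) + ∑ t ∈ S3, 2 * C * (1 / (t * EE n t)) +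
      ∑ t ∈ S4, (1 + δ) * (EE n t / t) * (Real.exp (-(EE n t)) + δ) +
      ∑ t ∈ Finset.Icc 1 n, 8 / (n : ℝ) ^ 2 := by
    rw [hS1, hS2, hS3, hS4, Finset.sum_filter, Finset.sum_filter, Finset.sum_filter,
      Finset.sum_filter, ← Finset.sum_add_distrib, ← Finset.sum_add_distrib,
      ← Finset.sum_add_distrib, ← Finset.sum_add_distrib]
    refine Finset.sum_le_sum fun t htm => ?_
    rw [Finset.mem_Icc] at htm
    have ht1 := htm.1
    have htpos : (0 : ℝ) < t := by exact_mod_cast ht1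
    have hE := hEpos t ht1
    have n1 : (0 : ℝ) ≤ (if (t : ℝ) ≤ Real.sqrt n then C / n else 0) := by
      split_ifs <;> positivity
    have n2 : (0 : ℝ) ≤ (if Real.sqrt n ≤ t ∧ (t : ℝ) ≤ 2 * Real.sqrt n * Real.log n ∧
        EE n t < 1 / B then 2 * (EE n t / t) else 0) := by
      split_ifs <;> positivity
    have n3 : (0 : ℝ) ≤ (if Real.sqrt n ≤ t ∧ (t : ℝ) ≤ 2 * Real.sqrt n * Real.log n ∧
        B < EE n t then 2 * C * (1 / (t * EE n t)) else 0) := by
      split_ifs <;> positivity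
    have n4 : (0 : ℝ) ≤ (if Real.sqrt n ≤ t ∧ 1 / B ≤ EE n t ∧ EE n t ≤ B then
        (1 + δ) * (EE n t / t) * (Real.exp (-(EE n t)) + δ) else 0) := by
      split_ifs <;> positivity
    have n5 : (0 : ℝ) ≤ 8 / (n : ℝ) ^ 2 := by positivity
    by_cases c1 : (t : ℝ) ≤ Real.sqrt n
    · have h1 : r t * κ t ≤ C / n := by
        calc r t * κ t ≤ 1 * κ t := mul_le_mul_of_nonneg_right (hr1 t) (hκ0 t)
          _ = κ t := one_mul _
          _ ≤ C / n := ht.2 t ht1 c1
      rw [if_pos c1]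
      linarith
    rw [not_le] at c1
    by_cases c2 : (t : ℝ) ≤ 2 * Real.sqrt n * Real.log n
    swap
    · rw [not_le] at c2
      have h1 : r t * κ t ≤ 8 / (n : ℝ) ^ 2 := by
        calc r t * κ t ≤ r t * 1 := mul_le_mul_of_nonneg_left (hκ1 t) (hr0 t)
          _ = r t := mul_one _
          _ ≤ 8 / (n : ℝ) ^ 2 := hfar t c2
      linarith
    have hrt := hrE t ht1 c2
    by_cases c3 : EE n t < 1 / B
    · have h1 : r t * κ t ≤ 2 * (EE n t / t) := by
        calc r t * κ t ≤ r t * 1 := mul_le_mul_of_nonneg_left (hκ1 t) (hr0 t)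
          _ = r t := mul_one _
          _ ≤ (1 + δ) * (EE n t / t) := hrt
          _ ≤ 2 * (EE n t / t) := by
              apply mul_le_mul_of_nonneg_right _ (by positivity)
              linarith
      rw [if_pos (show Real.sqrt n ≤ t ∧ (t : ℝ) ≤ 2 * Real.sqrt n * Real.log n ∧
        EE n t < 1 / B from ⟨c1.le, c2, c3⟩)]
      linarith
    rw [not_lt] at c3
    by_cases c4 : B < EE n t
    · have h1 : r t * κ t ≤ 2 * C * (1 / (t * EE n t)) := by
        calc r t * κ t ≤ (2 * (EE n t / t)) * (C / (EE n t) ^ 2) := by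
              apply mul_le_mul _ (ht.1 t c1.le c2) (hκ0 t) (by positivity)
              refine hrt.trans ?_
              apply mul_le_mul_of_nonneg_right _ (by positivity)
              linarith
          _ = 2 * C * (1 / (t * EE n t)) := by
              field_simp
      rw [if_pos (show Real.sqrt n ≤ t ∧ (t : ℝ) ≤ 2 * Real.sqrt n * Real.log n ∧
        B < EE n t from ⟨c1.le, c2, c4⟩)]
      linarith
    rw [not_lt] at c4
    have h1 : r t * κ t ≤ (1 + δ) * (EE n t / t) * (Real.exp (-(EE n t)) + δ) := by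
      apply mul_le_mul hrt _ (hκ0 t) (by positivity)
      have := (abs_le.1 (hk t c1.le c3 c4)).2
      show (cn t n : ℝ) / pn n ≤ _
      linarith
    rw [if_pos (show Real.sqrt n ≤ t ∧ 1 / B ≤ EE n t ∧ EE n t ≤ B from ⟨c1.le, c3, c4⟩)]
    linarith
  -- the five sums
  have b1 : ∑ t ∈ S1, C / (n : ℝ) ≤ C / Real.sqrt n := by
    rw [Finset.sum_const, nsmul_eq_mul]
    have h1 : S1 ⊆ Finset.Icc 1 ⌊Real.sqrt n⌋₊ := by
      intro t ht
      rw [hS1, Finset.mem_filter, Finset.mem_Icc] at ht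
      rw [Finset.mem_Icc]
      exact ⟨ht.1.1, Nat.le_floor ht.2⟩
    have h2 : (S1.card : ℝ) ≤ Real.sqrt n := by
      have h3 := Finset.card_le_card h1
      rw [Nat.card_Icc, Nat.add_sub_cancel] at h3
      exact (Nat.cast_le.2 h3).trans (Nat.floor_le hsq0.le)
    calc (S1.card : ℝ) * (C / n) ≤ Real.sqrt n * (C / n) :=
          mul_le_mul_of_nonneg_right h2 (by positivity)
      _ = C / Real.sqrt n := by
          have h4 : Real.sqrt n * Real.sqrt n = n := Real.mul_self_sqrt h0.le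
          field_simp
          rw [sq, h4]
  have b2 : ∑ t ∈ S2, 2 * (EE n t / t) ≤ 2 * (C' / (B * Real.log n)) := by
    rw [← Finset.mul_sum]
    exact mul_le_mul_of_nonneg_left htail.1 (by norm_num)
  have b3 : ∑ t ∈ S3, 2 * C * (1 / (t * EE n t)) ≤ 2 * C * (C' / (B * Real.log n)) := by
    rw [← Finset.mul_sum]
    exact mul_le_mul_of_nonneg_left htail.2 (by positivity)
  have b4 : ∑ t ∈ S4, (1 + δ) * (EE n t / t) * (Real.exp (-(EE n t)) + δ) ≤
      (2 + ε / 4) / Real.log n := by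
    have h1 : ∑ t ∈ S4, (1 + δ) * (EE n t / t) * (Real.exp (-(EE n t)) + δ) =
        (1 + δ) * (∑ t ∈ S4, EE n t / t * Real.exp (-(EE n t)) + δ * ∑ t ∈ S4, EE n t / t) := by
      rw [Finset.mul_sum, ← Finset.sum_add_distrib, Finset.mul_sum]
      refine Finset.sum_congr rfl fun t _ => ?_
      ring
    rw [h1]
    have h2 : ∑ t ∈ S4, EE n t / t * Real.exp (-(EE n t)) ≤ (2 + δ) / Real.log n := htel.1
    have h3 : ∑ t ∈ S4, EE n t / t ≤ (2 * B + δ) / Real.log n := htel.2.2
    calc (1 + δ) * (∑ t ∈ S4, EE n t / t * Real.exp (-(EE n t)) + δ * ∑ t ∈ S4, EE n t / t)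
        ≤ (1 + δ) * ((2 + δ) / Real.log n + δ * ((2 * B + δ) / Real.log n)) := by
          apply mul_le_mul_of_nonneg_left _ (by positivity)
          exact add_le_add h2 (mul_le_mul_of_nonneg_left h3 hδ.le)
      _ = ((1 + δ) * ((2 + δ) + δ * (2 * B + δ))) / Real.log n := by
          field_simp
      _ ≤ (2 + ε / 4) / Real.log n := div_le_div_of_nonneg_right hδε hlog.le
  have b5 : ∑ t ∈ Finset.Icc 1 n, 8 / (n : ℝ) ^ 2 ≤ 8 / Real.sqrt n := by
    rw [Finset.sum_const, nsmul_eq_mul, Nat.card_Icc, Nat.add_sub_cancel]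
    have h4 : Real.sqrt n ≤ n := by
      rw [Real.sqrt_le_left h0.le]
      have : (1 : ℝ) ≤ n := by exact_mod_cast hn1
      nlinarith
    calc (n : ℝ) * (8 / (n : ℝ) ^ 2) = 8 / n := by field_simp
      _ ≤ 8 / Real.sqrt n := div_le_div_of_nonneg_left (by norm_num) hsq0 h4
  have htot : zII n ≤ (C + 8) / Real.sqrt n + ((2 * C' + 2 * C * C') / B) / Real.log n +
      (2 + ε / 4) / Real.log n := by
    have h1 := (hZ n hn1).2.trans hsub
    have h2 : (C + 8) / Real.sqrt n = C / Real.sqrt n + 8 / Real.sqrt n := by ring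
    have h3 : ((2 * C' + 2 * C * C') / B) / Real.log n = 2 * (C' / (B * Real.log n)) +
        2 * C * (C' / (B * Real.log n)) := by
      field_simp
    rw [h2, h3]
    linarith
  have hfin : zII n * Real.log n ≤ ((C + 8) / Real.sqrt n +
      ((2 * C' + 2 * C * C') / B) / Real.log n + (2 + ε / 4) / Real.log n) * Real.log n :=
    mul_le_mul_of_nonneg_right htot hlog.le
  have heq : ((C + 8) / Real.sqrt n + ((2 * C' + 2 * C * C') / B) / Real.log n +
      (2 + ε / 4) / Real.log n) * Real.log n = (C + 8) * (Real.log n / Real.sqrt n) +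
      (2 * C' + 2 * C * C') / B + (2 + ε / 4) := by
    field_simp
  rw [heq] at hfin
  linarith

end Pool.Agent.Helper79.ZC
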