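import Pool.Agent.Helper58.ZC.BIJ
import Pool.Agent.Helper58.ZC.SUMS
import Pool.Agent.Helper58.ZC.ZI
import Pool.Agent.Helper58.ZC.ZII
import Pool.Agent.Helper60.ZC.DEC
import Pool.Agent.Helper60.ZC.RAT
import Pool.Agent.Helper60.ZC.TEL
import Pool.Agent.Helper52.ZC.GF
import Pool.Agent.Helper52.ZC.KAP
import Pool.Agent.Helper52.ZC.WIN
import Pool.Agent.Helper52.ZC.INV
import Pool.Agent.Helper57.ZC.KAT
import Pool.Agent.Helper57.ZC.TAIL
import Pool.Agent.Helper57.ZC.FAC
import Pool.Agent.Helper57.ZC.LIP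
import Pool.Agent.Helper77.ZC.LOW
import Pool.Agent.Helper77.ZC.MEAN
import Pool.Agent.Helper79.ZC.CNT
import Pool.Agent.Helper79.ZC.CORE
import Pool.Agent.Helper79.ZC.UPDN
import Pool.Agent.Helper79.ZC.MOV
import Pool.Agent.Helper79.ZC.INJ
import Pool.Agent.Helper79.ZC.UPP
import Pool.Agent.Helper79.ZC.LOB
import Pool.Agent.Helper79.ZC.FIN

set_option autoImplicit false

/-!
Assembly for MP_b87613_al: the densities of the zeros of type I and of type II of the character
tables of the symmetric groups are both asymptotic to `2 / log n`.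
-/

namespace Pool.Agent.Helper79.ZC

theorem all_CNT : ST_CNT := st_CNT st_BIJ st_CORE st_UPDN st_MOV st_INJ

theorem all_INV : ST_INV := st_INV st_GF

theorem all_DEC : ST_DEC := st_DEC st_FAC

theorem all_LOW : ST_LOW := st_LOW all_INV st_FAC all_DEC st_SUMS st_MEAN

theorem all_LIP : ST_LIP := st_LIP all_INV all_DEC

theorem all_RAT : ST_RAT := st_RAT st_GF all_LIP all_LOW

theorem all_TEL : ST_TEL := st_TEL st_WIN

theorem all_KAP : ST_KAP := st_KAP all_CNT all_RAT st_WIN

theorem all_KAT : ST_KAT := st_KAT all_CNT all_RAT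

theorem all_UPP : ST_UPP := st_UPP st_ZII st_GF all_RAT all_KAP all_KAT all_TEL st_TAIL

theorem all_LOB : ST_LOB := st_LOB st_ZI st_GF all_RAT all_KAP st_WIN all_TEL

theorem all_FIN : ST_FIN := st_FIN st_ZII all_UPP all_LOB

end Pool.Agent.Helper79.ZC
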