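import Mathlib

set_option autoImplicit false

/-!
Definitions for MP_b87613_al: hook lengths, cores, and the densities of the zeros of type I and
of type II of the character tables of the symmetric groups.
-/

namespace Pool.Agent.Helper79.ZC

open scoped Classical

/-- The `i`-th largest part of the partition `l` (counted from `0`, so that `row l 0` is the
largest part), and `0` if `l` has at most `i` parts. -/
noncomputable def row {n : ℕ} (l : n.Partition) (i : ℕ) : ℕ :=
  (l.parts.sort (fun a b => b ≤ a)).getD i 0

/-- The hook length of the cell in row `i` and column `j` (both counted from `0`) of the Young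
diagram of `l`: the number of cells to the right of it in its row, plus the number of rows
`s ≥ i` which are longer than `j`. -/
noncomputable def hook {n : ℕ} (l : n.Partition) (i j : ℕ) : ℕ :=
  (row l i - (j + 1)) + ((Finset.range n).filter (fun s => i ≤ s ∧ j < row l s)).card

/-- `l` is a `t`-core: no hook length of `l` is divisible by `t`. -/
def IsCore {n : ℕ} (t : ℕ) (l : n.Partition) : Prop :=
  ∀ i j : ℕ, j < row l i → ¬ t ∣ hook l i j

/-- The density of the zeros of type I. -/
noncomputable def zI (n : ℕ) : ℝ :=
  ((Finset.univ.filter (fun q : n.Partition × n.Partition => IsCore (row q.2 0) q.1)).card : ℝ) /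
    (Fintype.card n.Partition : ℝ) ^ 2

/-- The density of the zeros of type II. -/
noncomputable def zII (n : ℕ) : ℝ :=
  ((Finset.univ.filter (fun q : n.Partition × n.Partition =>
    ∃ t ∈ q.2.parts, IsCore t q.1)).card : ℝ) / (Fintype.card n.Partition : ℝ) ^ 2

end Pool.Agent.Helper79.ZC
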