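import Pool.Agent.Helper79.ZC.Defs

set_option autoImplicit false

/-!
Auxiliary definitions and the module statements `ST_X` for MP_b87613_al.
Blueprint: /team-store/h79_zc.md. Module X proves `theorem st_X (h : ST_Y) ... : ST_X`.
-/

namespace Pool.Agent.Helper79.ZC

open scoped Classical
open Filter Topology MeasureTheory

/-! ### counting functions -/

/-- `pn n` is the number of partitions of `n`. -/
noncomputable def pn (n : ℕ) : ℕ := Fintype.card n.Partition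

/-- `cn t n` is the number of `t`-cores of size `n`. -/
noncomputable def cn (t n : ℕ) : ℕ :=
  (Finset.univ.filter (fun l : n.Partition => IsCore t l)).card

/-! ### bead sets (beta sets) with `M` beads -/

/-- the bead set of a partition, with `M` beads -/
noncomputable def bead (M : ℕ) {n : ℕ} (l : n.Partition) : Finset ℕ :=
  (Finset.range M).image (fun i => row l i + (M - 1 - i))

/-- all sets of `M` beads of size `n` -/
noncomputable def bs (M n : ℕ) : Finset (Finset ℕ) :=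
  ((Finset.range (M + n)).powersetCard M).filter
    (fun X => ∑ x ∈ X, x = ∑ i ∈ Finset.range M, i + n)

/-- beads that can be moved down by `t` -/
noncomputable def dn (t : ℕ) (X : Finset ℕ) : Finset ℕ := X.filter (fun x => t ≤ x ∧ x - t ∉ X)

/-- beads that can be moved up by `t` -/
noncomputable def up (t : ℕ) (X : Finset ℕ) : Finset ℕ := X.filter (fun x => x + t ∉ X)

/-- BIJ: partitions of `n` correspond to bead sets -/
def ST_BIJ : Prop := ∀ M n : ℕ, n ≤ M →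
  (∀ l : n.Partition, bead M l ∈ bs M n) ∧
  (∀ l l' : n.Partition, bead M l = bead M l' → l = l') ∧
  (∀ X ∈ bs M n, ∃ l : n.Partition, bead M l = X)

/-- CORE: the core condition in terms of beads -/
def ST_CORE : Prop := ∀ (M n t : ℕ), 1 ≤ t → n ≤ M → ∀ l : n.Partition,
  (IsCore t l ↔ dn t (bead M l) = ∅)

/-- UPDN: the number of movable beads -/
def ST_UPDN : Prop := ∀ M n t : ℕ, 1 ≤ t → n + t ≤ M → ∀ X ∈ bs M n,
  (up t X).card = (dn t X).card + t ∧ (dn t X).card * t ≤ n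

/-- MOV: moving `j` beads -/
def ST_MOV : Prop := ∀ M n t j : ℕ, 1 ≤ t →
  ∑ X ∈ bs M (n + j * t), ((dn t X).card).choose j = ∑ Y ∈ bs M n, ((up t Y).card).choose j

/-- INJ: a core is determined by any bead set obtained from it by moving beads up -/
def ST_INJ : Prop := ∀ M n t j : ℕ, 1 ≤ t → n + t ≤ M →
  ((bs M n).filter (fun Y => dn t Y = ∅)).card * t.choose j ≤ (bs M (n + j * t)).card

/-- CNT: the counting facts about cores -/
def ST_CNT : Prop :=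
  (∀ n t j : ℕ, 1 ≤ t → cn t n * t.choose j ≤ pn (n + j * t)) ∧
  (∀ n t k : ℕ, 1 ≤ k → cn t n ≤ cn (k * t) n) ∧
  (∀ n t : ℕ, 1 ≤ t → ∃ a : ℕ → ℕ,
    (∀ j : ℕ, j * t ≤ n → t.choose j * pn (n - j * t) ≤ a j ∧
      a j ≤ (t + n / t).choose j * pn (n - j * t)) ∧
    (∀ J : ℕ, ∑ j ∈ Finset.range (2 * J), (-1 : ℤ) ^ j * (a j : ℤ) ≤ (cn t n : ℤ) ∧
      (cn t n : ℤ) ≤ ∑ j ∈ Finset.range (2 * J + 1), (-1 : ℤ) ^ j * (a j : ℤ)))

/-- ZII: union bound for the zeros of type II, and the trivial facts -/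
def ST_ZII : Prop := ∀ n : ℕ, 1 ≤ n →
  zI n ≤ zII n ∧
  zII n ≤ ∑ t ∈ Finset.Icc 1 n, ((pn (n - t) : ℝ) / pn n) * ((cn t n : ℝ) / pn n)

/-- ZI: lower bound for the zeros of type I; `W` is any set of possible largest parts -/
def ST_ZI : Prop := ∀ (n : ℕ) (W : Finset ℕ), 1 ≤ n → (∀ t ∈ W, 1 ≤ t ∧ t ≤ n) →
  ∑ t ∈ W, ((pn (n - t) : ℝ) / pn n -
    ∑ s ∈ (Finset.Ioc t n).filter (fun s => t + s ≤ n), (pn (n - t - s) : ℝ) / pn n) *
      ((cn t n : ℝ) / pn n) ≤ zI n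

/-! ### analysis: the ratios of the partition numbers -/

/-- partitions of `m` into parts of size at most `M` -/
noncomputable def am (M m : ℕ) : ℕ :=
  (Finset.univ.filter (fun l : m.Partition => ∀ i ∈ l.parts, i ≤ M)).card

/-- `al n = π / √(6 n)` -/
noncomputable def al (n : ℕ) : ℝ := Real.pi / Real.sqrt (6 * n)

/-- the characteristic function of the Boltzmann measure with parts at most `M` -/
noncomputable def phi (M : ℕ) (α θ : ℝ) : ℂ :=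
  ∏ k ∈ Finset.Icc 1 M, ((1 - Real.exp (-α * k) : ℝ) : ℂ) /
    (1 - Complex.exp (-(α : ℂ) * k + Complex.I * θ * k))

/-- the Boltzmann probability of size `m` -/
noncomputable def qq (M : ℕ) (α : ℝ) (m : ℕ) : ℝ :=
  (am M m : ℝ) * Real.exp (-α * m) * ∏ k ∈ Finset.Icc 1 M, (1 - Real.exp (-α * k))

/-- GF: generating function of partitions with parts at most `M`, monotonicity of `pn` -/
def ST_GF : Prop :=
  (∀ (M : ℕ) (z : ℂ), ‖z‖ < 1 →
    HasSum (fun m : ℕ => (am M m : ℂ) * z ^ m) (∏ k ∈ Finset.Icc 1 M, (1 - z ^ k)⁻¹)) ∧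
  (∀ M m : ℕ, m ≤ M → am M m = pn m) ∧
  (∀ m n : ℕ, m ≤ n → pn m ≤ pn n)

/-- INV: Fourier inversion -/
def ST_INV : Prop := ∀ (M m : ℕ) (α : ℝ), 0 < α →
  ((qq M α m : ℝ) : ℂ) = (1 / (2 * Real.pi) : ℝ) *
    ∫ θ in (-Real.pi)..Real.pi, phi M α θ * Complex.exp (-Complex.I * θ * m)

/-- FAC: one factor of the characteristic function -/
def ST_FAC : Prop := ∀ (y u : ℝ), 0 ≤ y → y < 1 →
  ‖((1 - y : ℝ) : ℂ) / (1 - y * Complex.exp (Complex.I * u))‖ ≤ Real.exp (-y * (1 - Real.cos u)) ∧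
  ∃ r : ℂ, ‖r‖ ≤ |u| ^ 3 * y / (1 - y) ^ 3 ∧
    ((1 - y : ℝ) : ℂ) / (1 - y * Complex.exp (Complex.I * u)) =
      Complex.exp (Complex.I * (u * y / (1 - y) : ℝ) - (u ^ 2 * y / (1 - y) ^ 2 / 2 : ℝ) + r)

/-- DEC: decay of the characteristic function -/
def ST_DEC : Prop := ∃ c C : ℝ, 0 < c ∧ 0 < C ∧ ∀ (M : ℕ) (α θ : ℝ), 0 < α → α ≤ 1 →
  1 ≤ M * α ^ 2 → |θ| ≤ Real.pi →
  ‖phi M α θ‖ ≤ C * (Real.exp (-c * θ ^ 2 / α ^ 3) + Real.exp (-c / α))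

/-- SUMS: the second and third order sums -/
def ST_SUMS : Prop := ∃ C : ℝ, 0 < C ∧ ∀ (M : ℕ) (α : ℝ), 0 < α → α ≤ 1 →
  ∑ k ∈ Finset.Icc 1 M, (k : ℝ) ^ 2 * Real.exp (-α * k) / (1 - Real.exp (-α * k)) ^ 2
    ≤ C / α ^ 3 ∧
  ∑ k ∈ Finset.Icc 1 M, (k : ℝ) ^ 3 * Real.exp (-α * k) / (1 - Real.exp (-α * k)) ^ 3
    ≤ C / α ^ 4

/-- MEAN: the mean of the Boltzmann measure with `α = al n`, `M = 2 n`, is `n + O(√n)` -/
def ST_MEAN : Prop := ∃ C : ℝ, 0 < C ∧ ∀ n : ℕ, 1 ≤ n →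
  |∑ k ∈ Finset.Icc 1 (2 * n), (k : ℝ) * Real.exp (-(al n) * k) / (1 - Real.exp (-(al n) * k))
    - n| ≤ C * Real.sqrt n

/-- LIP: the Boltzmann probabilities vary slowly -/
def ST_LIP : Prop := ∃ C : ℝ, 0 < C ∧ ∀ (M : ℕ) (α : ℝ), 0 < α → α ≤ 1 → 1 ≤ M * α ^ 2 →
  ∀ m m' : ℕ, |qq M α m - qq M α m'| ≤ C * α ^ 3 * |(m : ℝ) - m'|

/-- LOW: lower bound for the Boltzmann probability of size `n` -/
def ST_LOW : Prop := ∃ c : ℝ, 0 < c ∧ ∀ᶠ n : ℕ in atTop,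
  c * (al n) ^ (3 / 2 : ℝ) ≤ qq (2 * n) (al n) n

/-- RAT: asymptotics of the ratios of partition numbers -/
def ST_RAT : Prop := ∀ K ε : ℝ, 0 < K → 0 < ε → ∀ᶠ n : ℕ in atTop,
  ∀ s : ℕ, (s : ℝ) ≤ K * Real.sqrt n * Real.log n →
    s ≤ n ∧
    |(pn (n + s) : ℝ) / pn n - Real.exp (al n * s)| ≤ ε * Real.exp (al n * s) ∧
    |(pn (n - s) : ℝ) / pn n - Real.exp (-(al n) * s)| ≤ ε * Real.exp (-(al n) * s)

/-! ### assembly -/

/-- the expected number of hooks of length `t` -/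
noncomputable def EE (n t : ℕ) : ℝ := t * Real.exp (-(al n) * t)

/-- WIN: the critical window -/
def ST_WIN : Prop := ∀ B ε : ℝ, 1 < B → 0 < ε → ∀ᶠ n : ℕ in atTop,
  ∀ t : ℕ, Real.sqrt n ≤ t → 1 / B ≤ EE n t → EE n t ≤ B →
    (t : ℝ) ≤ Real.sqrt n * Real.log n ∧
    (1 / 2 - ε) * Real.log n ≤ al n * t ∧ al n * t ≤ (1 / 2 + ε) * Real.log n ∧
    0 < EE n t - EE n (t + 1) ∧ EE n t - EE n (t + 1) ≤ ε ∧
    |EE n t / t * (Real.log n / 2) - (EE n t - EE n (t + 1))| ≤ ε * (EE n t - EE n (t + 1))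

/-- TAIL: the two tails of the sum over `t` -/
def ST_TAIL : Prop := ∃ C : ℝ, 0 < C ∧ ∀ B : ℝ, 1 < B → ∀ᶠ n : ℕ in atTop,
  ∑ t ∈ (Finset.Icc 1 n).filter (fun t : ℕ => Real.sqrt n ≤ t ∧
      (t : ℝ) ≤ 2 * Real.sqrt n * Real.log n ∧ EE n t < 1 / B), EE n t / t
    ≤ C / (B * Real.log n) ∧
  ∑ t ∈ (Finset.Icc 1 n).filter (fun t : ℕ => Real.sqrt n ≤ t ∧
      (t : ℝ) ≤ 2 * Real.sqrt n * Real.log n ∧ B < EE n t), 1 / (t * EE n t)
    ≤ C / (B * Real.log n)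

/-- TEL: the main sum over the critical window -/
def ST_TEL : Prop := ∀ B ε : ℝ, 1 < B → 0 < ε → ∀ᶠ n : ℕ in atTop,
  ∑ t ∈ (Finset.Icc 1 n).filter (fun t : ℕ => Real.sqrt n ≤ t ∧ 1 / B ≤ EE n t ∧ EE n t ≤ B),
      EE n t / t * Real.exp (-(EE n t)) ≤ (2 + ε) / Real.log n ∧
  (2 * (Real.exp (-(1 / B)) - Real.exp (-B)) - ε) / Real.log n ≤
    ∑ t ∈ (Finset.Icc 1 n).filter (fun t : ℕ => Real.sqrt n ≤ t ∧ 1 / B ≤ EE n t ∧ EE n t ≤ B),
      EE n t / t * Real.exp (-(EE n t)) ∧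
  ∑ t ∈ (Finset.Icc 1 n).filter (fun t : ℕ => Real.sqrt n ≤ t ∧ 1 / B ≤ EE n t ∧ EE n t ≤ B),
      EE n t / t ≤ (2 * B + ε) / Real.log n

/-- KAP: the probability of being a `t`-core, in the critical window -/
def ST_KAP : Prop := ∀ B ε : ℝ, 1 < B → 0 < ε → ∀ᶠ n : ℕ in atTop,
  ∀ t : ℕ, Real.sqrt n ≤ t → 1 / B ≤ EE n t → EE n t ≤ B →
    |(cn t n : ℝ) / pn n - Real.exp (-(EE n t))| ≤ ε

/-- KAT: upper bounds for the probability of being a `t`-core -/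
def ST_KAT : Prop := ∃ C : ℝ, 0 < C ∧ ∀ᶠ n : ℕ in atTop,
  (∀ t : ℕ, Real.sqrt n ≤ t → (t : ℝ) ≤ 2 * Real.sqrt n * Real.log n →
    (cn t n : ℝ) / pn n ≤ C / (EE n t) ^ 2) ∧
  (∀ t : ℕ, 1 ≤ t → (t : ℝ) ≤ Real.sqrt n → (cn t n : ℝ) / pn n ≤ C / n)

/-- UPP: upper bound for the density of zeros of type II -/
def ST_UPP : Prop := ∀ ε : ℝ, 0 < ε → ∀ᶠ n : ℕ in atTop, zII n * Real.log n ≤ 2 + ε

/-- LOB: lower bound for the density of zeros of type I -/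
def ST_LOB : Prop := ∀ ε : ℝ, 0 < ε → ∀ᶠ n : ℕ in atTop, 2 - ε ≤ zI n * Real.log n

/-- FIN: both densities are asymptotic to `2 / log n` -/
def ST_FIN : Prop :=
  Tendsto (fun n : ℕ => zI n * Real.log n) atTop (𝓝 2) ∧
  Tendsto (fun n : ℕ => zII n * Real.log n) atTop (𝓝 2) ∧
  Tendsto zI atTop (𝓝 0) ∧ Tendsto zII atTop (𝓝 0)

end Pool.Agent.Helper79.ZC
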